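import Pool.Agent.Helper41_IR.Stmts

/-!
# IR squad, module AVG: with large probability `BB` is close to its mean
-/

set_option autoImplicit false

open MeasureTheory ProbabilityTheory

open scoped ENNReal NNReal BigOperators

noncomputable section

namespace Pool.Agent.IR.H85A

open Matrix Pool.Agent.Anderson Pool.Agent.Loc Pool.Agent.BED

variable {d M : ℕ} [NeZero M]

instance (v : ℝ≥0) : IsProbabilityMeasure (gau d M v) := by unfold gau; infer_instance

/-! ### Gaussian tails -/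

theorem gauss_tail {v : ℝ≥0} (hv : 0 < v) {y : ℝ} (hy : 0 ≤ y) :
    gaussianReal 0 v {z | y < |z|} ≤ ENNReal.ofReal (2 * Real.exp (-(y ^ 2 / (2 * v)))) := by
  have hv0 : (0 : ℝ) < v := by exact_mod_cast hv
  have ht : 0 ≤ y / v := by positivity
  have e : Real.exp (-(y / v) * y) * Real.exp (0 * (y / v) + v * (y / v) ^ 2 / 2) =
      Real.exp (-(y ^ 2 / (2 * v))) := by
    rw [← Real.exp_add]
    congr 1
    field_simp
    ring
  have e' : Real.exp (-(-(y / v)) * (-y)) * Real.exp (0 * (-(y / v)) + v * (-(y / v)) ^ 2 / 2) =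
      Real.exp (-(y ^ 2 / (2 * v))) := by
    rw [← Real.exp_add]
    congr 1
    field_simp
    ring
  have h1 : (gaussianReal 0 v).real {z | y ≤ z} ≤ Real.exp (-(y ^ 2 / (2 * v))) := by
    have h := measure_ge_le_exp_mul_mgf (μ := gaussianReal 0 v) (X := id) (t := y / v) y ht
      (integrable_exp_mul_gaussianReal _)
    rw [mgf_id_gaussianReal, e] at h
    exact h
  have h2 : (gaussianReal 0 v).real {z | z ≤ -y} ≤ Real.exp (-(y ^ 2 / (2 * v))) := by
    have h := measure_le_le_exp_mul_mgf (μ := gaussianReal 0 v) (X := id) (t := -(y / v)) (-y)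
      (neg_nonpos.2 ht) (integrable_exp_mul_gaussianReal _)
    rw [mgf_id_gaussianReal, e'] at h
    exact h
  have h3 : {z : ℝ | y < |z|} ⊆ {z : ℝ | y ≤ z} ∪ {z : ℝ | z ≤ -y} := by
    intro z hz
    have hz' : y < |z| := hz
    rcases lt_abs.1 hz' with h | h
    · exact Or.inl h.le
    · exact Or.inr (by change z ≤ -y; linarith)
  have h4 : (gaussianReal 0 v).real {z : ℝ | y < |z|} ≤
      2 * Real.exp (-(y ^ 2 / (2 * v))) := by
    have := (measureReal_mono (μ := gaussianReal 0 v) h3).trans (measureReal_union_le _ _)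
    linarith
  rw [← ENNReal.ofReal_toReal (measure_ne_top (gaussianReal 0 v) {z : ℝ | y < |z|})]
  exact ENNReal.ofReal_le_ofReal h4

theorem card_tor : (Fintype.card (Tor d M) : ℝ) = (M : ℝ) ^ d := by
  simp [Tor, ZMod.card]

theorem gau_tail {v : ℝ≥0} (hv : 0 < v) {s : ℝ} (hs : 0 ≤ s) :
    gau d M v {D | ¬ ∀ y, |D y| ≤ s} ≤
      ENNReal.ofReal ((M : ℝ) ^ d * (2 * Real.exp (-(s ^ 2 / (2 * v))))) := by
  have h1 : {D : Tor d M → ℝ | ¬ ∀ y, |D y| ≤ s} ⊆ ⋃ y : Tor d M, {D | s < |D y|} := by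
    intro D hD
    obtain ⟨y, hy⟩ := not_forall.1 hD
    exact Set.mem_iUnion.2 ⟨y, not_le.1 hy⟩
  have h2 : ∀ y : Tor d M, gau d M v {D | s < |D y|} ≤
      ENNReal.ofReal (2 * Real.exp (-(s ^ 2 / (2 * v)))) := by
    intro y
    have hp := measurePreserving_eval (fun _ : Tor d M => gaussianReal 0 v) y
    have hm : MeasurableSet {z : ℝ | s < |z|} :=
      measurableSet_lt measurable_const measurable_norm
    have := hp.measure_preimage hm.nullMeasurableSet
    calc gau d M v {D | s < |D y|} = gaussianReal 0 v {z : ℝ | s < |z|} := this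
      _ ≤ _ := gauss_tail hv hs
  refine (measure_mono h1).trans ((measure_iUnion_fintype_le _ _).trans ?_)
  refine (Finset.sum_le_sum fun y _ => h2 y).trans ?_
  have hc : (Fintype.card (Tor d M) : ℝ≥0∞) = ENNReal.ofReal ((M : ℝ) ^ d) := by
    rw [← card_tor, ENNReal.ofReal_natCast]
  rw [Finset.sum_const, Finset.card_univ, nsmul_eq_mul, hc, ← ENNReal.ofReal_mul (by positivity)]

/-! ### measurability of the bad set -/

/-- the bad directions -/
def badD (l : ℕ) (z μ E : ℝ) (b : Tor d M → ℝ) (ε s ρ : ℝ) :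
    Set ((Tor d M → ℝ) × (Tor d M → ℝ)) :=
  {q | FlatD (1 / 50) z μ q.1 ∧ (∀ y, |q.2 y| ≤ s) ∧ ∃ w, ρ * NK b ε w < |dB l E q.1 q.2 w|}

theorem cont_ft (θ : Tor d M) : Continuous fun w : Tor d M → ℝ => ft w θ := by
  unfold ft
  fun_prop

theorem cont_NK (b : Tor d M → ℝ) (ε : ℝ) : Continuous fun w : Tor d M → ℝ => NK b ε w := by
  unfold NK
  exact continuous_finsetSum _ fun θ _ => continuous_const.mul (cont_ft θ)

theorem cont_dB (l : ℕ) (E : ℝ) (V D : Tor d M → ℝ) :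
    Continuous fun w : Tor d M → ℝ => dB l E V D w := by
  unfold dB
  simp only [Matrix.mulVec, dotProduct]
  fun_prop

theorem meas_dB (hM : MeasStmt) (l : ℕ) (E : ℝ) (w : Tor d M → ℝ) :
    Measurable fun q : (Tor d M → ℝ) × (Tor d M → ℝ) => dB l E q.1 q.2 w := by
  have hG := (hM d M l E 0 0 0).1
  unfold dB
  simp only [Matrix.mulVec, dotProduct]
  refine Measurable.const_mul (Finset.measurable_fun_sum _ fun y _ => ?_) _
  refine ((measurable_pi_apply y).comp measurable_snd).mul ?_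
  refine Measurable.pow_const (Finset.measurable_fun_sum _ fun x _ => ?_) 2
  exact ((hG y x).comp measurable_fst).mul_const _

theorem meas_badD (hM : MeasStmt) (l : ℕ) (z μ E : ℝ) (b : Tor d M → ℝ) (ε s ρ : ℝ) :
    MeasurableSet (badD l z μ E b ε s ρ) := by
  have hF : MeasurableSet (Gd d M (1 / 50) z μ) := (hM d M l E (1 / 50) z μ).2.2
  have e : badD l z μ E b ε s ρ = (Prod.fst ⁻¹' (Gd d M (1 / 50) z μ)) ∩
      ((⋂ y : Tor d M, {q : (Tor d M → ℝ) × (Tor d M → ℝ) | |q.2 y| ≤ s}) ∩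
      ⋃ n : ℕ, {q | ρ * NK b ε (TopologicalSpace.denseSeq (Tor d M → ℝ) n) <
        |dB l E q.1 q.2 (TopologicalSpace.denseSeq (Tor d M → ℝ) n)|}) := by
    ext q
    constructor
    · rintro ⟨h1, h2, w, h3⟩
      refine ⟨h1, Set.mem_iInter.2 h2, ?_⟩
      have ho : IsOpen {w : Tor d M → ℝ | ρ * NK b ε w < |dB l E q.1 q.2 w|} :=
        isOpen_lt (continuous_const.mul (cont_NK b ε)) (cont_dB l E q.1 q.2).abs
      obtain ⟨n, hn⟩ := (TopologicalSpace.denseRange_denseSeq (Tor d M → ℝ)).exists_mem_open ho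
        ⟨w, h3⟩
      exact Set.mem_iUnion.2 ⟨n, hn⟩
    · rintro ⟨h1, h2, h3⟩
      obtain ⟨n, hn⟩ := Set.mem_iUnion.1 h3
      have h4 := Set.mem_iInter.1 h2
      exact ⟨h1, h4, _, hn⟩
  rw [e]
  refine (measurable_fst hF).inter (MeasurableSet.inter (MeasurableSet.iInter fun y => ?_)
    (MeasurableSet.iUnion fun n => ?_))
  · exact measurableSet_le (((measurable_pi_apply y).comp measurable_snd).norm) measurable_const
  · exact measurableSet_lt measurable_const (meas_dB hM l E _).norm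

/-! ### elementary facts -/

theorem ft_nonneg (w : Tor d M → ℝ) (θ : Tor d M) : 0 ≤ ft w θ := by
  unfold ft; positivity

theorem NK_ge (hF : FourStmt) (b : Tor d M → ℝ) {ε : ℝ} (hε : 0 < ε) (w : Tor d M → ℝ) :
    ε * sqn w ≤ NK b ε w := by
  rw [← (hF d M).1 w, Finset.mul_sum]
  unfold NK
  refine Finset.sum_le_sum fun θ _ => mul_le_mul_of_nonneg_right ?_ (ft_nonneg w θ)
  refine Real.le_sqrt_of_sq_le ?_
  nlinarith [sq_nonneg (1 - bh b θ)]

theorem NK_nonneg (b : Tor d M → ℝ) (ε : ℝ) (w : Tor d M → ℝ) : 0 ≤ NK b ε w :=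
  Finset.sum_nonneg fun θ _ => mul_nonneg (Real.sqrt_nonneg _) (ft_nonneg w θ)

theorem ip_sub_mulVec (A B : Matrix (Tor d M) (Tor d M) ℝ) (w : Tor d M → ℝ) :
    ip w ((A - B) *ᵥ w) = ip w (A *ᵥ w) - ip w (B *ᵥ w) := by
  rw [Matrix.sub_mulVec, ip_sub_right]

theorem ip_mulVec_eq (A : Matrix (Tor d M) (Tor d M) ℝ) (w : Tor d M → ℝ) :
    ip w (A *ᵥ w) = ∑ x, ∑ y, w x * w y * A x y := by
  unfold ip
  refine Finset.sum_congr rfl fun x _ => ?_
  simp only [Matrix.mulVec, dotProduct, Finset.mul_sum]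
  exact Finset.sum_congr rfl fun y _ => by ring

theorem flat_mono {δ z μ : ℝ} (hμ : 0 < μ) (hδ : δ ≤ 1 / 50) {V : Tor d M → ℝ}
    (h : FlatD δ z μ V) : FlatD (1 / 50) z μ V :=
  ⟨h.1, h.2.1, fun x => (h.2.2 x).trans (mul_le_mul_of_nonneg_right hδ hμ.le)⟩

theorem BB_le (hG : GapStmt) {l : ℕ} {z μ E : ℝ} (hP : Par d M l z μ E) {V : Tor d M → ℝ}
    (hV : FlatD (1 / 50) z μ V) (x y : Tor d M) : |BB l E V x y| ≤ 2 := by
  have h := (hG d M l z μ E V hP hV).2.2.2.2.2.2.2 (Pi.single y 1)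
  have h1 : sqn (Pi.single y 1 : Tor d M → ℝ) = 1 := by
    rw [← ip_self, ip_single]
    simp
  have h2 : (BB l E V x y) ^ 2 ≤ sqn (BB l E V *ᵥ (Pi.single y 1)) := by
    have := Finset.single_le_sum (f := fun x => (BB l E V *ᵥ (Pi.single y 1)) x ^ 2)
      (fun x _ => sq_nonneg _) (Finset.mem_univ x)
    simpa [sqn] using this
  rw [h1] at h
  exact abs_le_of_sq_le_sq (by linarith) (by norm_num)

theorem int_BB (hM : MeasStmt) (hG : GapStmt) {l : ℕ} {z μ E δ : ℝ} (hP : Par d M l z μ E)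
    (hδ : δ ≤ 1 / 50) (v : ℝ≥0) (x y : Tor d M) :
    IntegrableOn (fun V => BB l E V x y) (Gd d M δ z μ) (gau d M v) := by
  have hmG : MeasurableSet (Gd d M δ z μ) := (hM d M l E δ z μ).2.2
  refine Measure.integrableOn_of_bounded (M := 2) (measure_ne_top _ _)
    ((hM d M l E δ z μ).2.1 x y).aestronglyMeasurable ?_
  refine ae_restrict_of_forall_mem hmG fun V hV => ?_
  exact BB_le hG hP (flat_mono hP.hμ hδ hV) x y

/-! ### the average over the good potentials -/

theorem good_V (hM : MeasStmt) (hG : GapStmt) (hF : FourStmt) {l : ℕ} {z μ E δ : ℝ} {v : ℝ≥0}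
    {b : Tor d M → ℝ} {ε : ℝ} (hP : Par d M l z μ E) (hδ : δ ≤ 1 / 50)
    (hmean : ∀ x y, (∫ V in Gd d M δ z μ, BB l E V x y ∂(gau d M v)) /
        (gau d M v (Gd d M δ z μ)).toReal = b (y - x))
    (hε : 0 < ε) (hm : 1 / 2 ≤ (gau d M v (Gd d M δ z μ)).toReal)
    {V : Tor d M → ℝ} (hV : FlatD δ z μ V) {B : Set (Tor d M → ℝ)} (hB : MeasurableSet B)
    (hBε : (gau d M v).real B ≤ ε / 100)
    (hgood : ∀ V' ∉ B, ∀ w, |ip w ((BB l E V' - BB l E V) *ᵥ w)| ≤ 9 / 80 * NK b ε w)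
    (w : Tor d M → ℝ) : |ip w ((BB l E V - cvM b) *ᵥ w)| ≤ 1 / 4 * NK b ε w := by
  have hmG : MeasurableSet (Gd d M δ z μ) := (hM d M l E δ z μ).2.2
  set G := Gd d M δ z μ with hGdef
  set P := gau d M v with hPdef
  set m := (P G).toReal with hmdef
  have hm0 : 0 < m := by linarith
  have hN0 := NK_nonneg b ε w
  have hNg := NK_ge hF b hε w
  have hI := fun x y => int_BB hM hG hP hδ v x y
  -- the identity
  have hb : ∀ x y, ∫ V' in G, BB l E V' x y ∂P = m * b (y - x) := by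
    intro x y
    rw [← hmean x y]
    field_simp
  have hId : ∫ V' in G, ip w ((BB l E V - BB l E V') *ᵥ w) ∂P =
      m * ip w ((BB l E V - cvM b) *ᵥ w) := by
    have e1 : ∀ V' : Tor d M → ℝ, ip w ((BB l E V - BB l E V') *ᵥ w) =
        ∑ x, ∑ y, (w x * w y * BB l E V x y - w x * w y * BB l E V' x y) := by
      intro V'
      rw [ip_mulVec_eq]
      refine Finset.sum_congr rfl fun x _ => Finset.sum_congr rfl fun y _ => ?_
      rw [Matrix.sub_apply]
      ring
    have e2 : ∀ x y : Tor d M, ∫ V' in G, (w x * w y * BB l E V x y -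
        w x * w y * BB l E V' x y) ∂P = m * (w x * w y * (BB l E V - cvM b) x y) := by
      intro x y
      rw [integral_sub (integrable_const _) ((hI x y).const_mul _), integral_const,
        integral_const_mul, hb x y]
      simp only [Matrix.sub_apply, cvM, Matrix.of_apply, smul_eq_mul]
      have : (P.restrict G).real Set.univ = m := by
        rw [measureReal_restrict_apply MeasurableSet.univ, Set.univ_inter]
        rfl
      rw [this]
      ring
    have hi : ∀ x y : Tor d M, Integrable (fun V' => w x * w y * BB l E V x y -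
        w x * w y * BB l E V' x y) (P.restrict G) := fun x y =>
      (integrable_const _).sub ((hI x y).const_mul _)
    have hi2 : ∀ x : Tor d M, Integrable (fun V' => ∑ y, (w x * w y * BB l E V x y -
        w x * w y * BB l E V' x y)) (P.restrict G) := fun x =>
      integrable_finsetSum _ fun y _ => hi x y
    have e3 : (fun V' : Tor d M → ℝ => ip w ((BB l E V - BB l E V') *ᵥ w)) =
        fun V' => ∑ x, ∑ y, (w x * w y * BB l E V x y - w x * w y * BB l E V' x y) := funext e1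
    rw [e3, integral_finsetSum _ fun x _ => hi2 x, ip_mulVec_eq, Finset.mul_sum]
    refine Finset.sum_congr rfl fun x _ => ?_
    rw [integral_finsetSum _ fun y _ => hi x y, Finset.mul_sum]
    exact Finset.sum_congr rfl fun y _ => e2 x y
  -- the pointwise bound
  have hpt : ∀ V' ∈ G, ‖ip w ((BB l E V - BB l E V') *ᵥ w)‖ ≤
      9 / 80 * NK b ε w + B.indicator (fun _ => 2 / ε * NK b ε w) V' := by
    intro V' hV'
    rw [Real.norm_eq_abs]
    by_cases hb' : V' ∈ B
    · rw [Set.indicator_of_mem hb', ip_sub_mulVec]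
      have g1 := hG d M l z μ E V hP (flat_mono hP.hμ hδ hV)
      have g2 := hG d M l z μ E V' hP (flat_mono hP.hμ hδ hV')
      have a1 := g1.2.2.2.2.2.1 w
      have a2 := g1.2.2.2.2.2.2.1 w
      have a3 := g2.2.2.2.2.2.1 w
      have a4 := g2.2.2.2.2.2.2.1 w
      have a5 : |ip w (BB l E V *ᵥ w) - ip w (BB l E V' *ᵥ w)| ≤ 2 * sqn w :=
        abs_le.2 ⟨by linarith, by linarith⟩
      have a6 : 2 * sqn w ≤ 2 / ε * NK b ε w := by
        rw [div_mul_eq_mul_div, le_div_iff₀ hε]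
        linarith
      linarith
    · rw [Set.indicator_of_notMem hb', add_zero, ← abs_neg]
      have := hgood V' hb' w
      have e : -ip w ((BB l E V - BB l E V') *ᵥ w) = ip w ((BB l E V' - BB l E V) *ᵥ w) := by
        rw [ip_sub_mulVec, ip_sub_mulVec]
        ring
      rw [e]
      exact this
  have hgi : Integrable (fun V' => 9 / 80 * NK b ε w +
      B.indicator (fun _ => 2 / ε * NK b ε w) V') (P.restrict G) :=
    (integrable_const _).add ((integrable_const _).indicator hB)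
  have hmain := norm_integral_le_of_norm_le hgi (ae_restrict_of_forall_mem hmG hpt)
  rw [hId, Real.norm_eq_abs, integral_add (integrable_const _)
    ((integrable_const _).indicator hB), integral_const, integral_indicator_const _ hB,
    abs_mul, abs_of_pos hm0] at hmain
  have hu : (P.restrict G).real Set.univ = m := by
    rw [measureReal_restrict_apply MeasurableSet.univ, Set.univ_inter]
    rfl
  have hBr : (P.restrict G).real B ≤ ε / 100 := by
    rw [measureReal_restrict_apply hB]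
    exact (measureReal_mono Set.inter_subset_left).trans hBε
  rw [hu, smul_eq_mul, smul_eq_mul] at hmain
  have h5 : (P.restrict G).real B * (2 / ε * NK b ε w) ≤ ε / 100 * (2 / ε * NK b ε w) :=
    mul_le_mul_of_nonneg_right hBr (by positivity)
  have h6 : ε / 100 * (2 / ε * NK b ε w) = 1 / 50 * NK b ε w := by field_simp; ring
  have h7 : 1 / 50 * NK b ε w ≤ m * (1 / 25 * NK b ε w) := by
    have := mul_le_mul_of_nonneg_right hm (show 0 ≤ 1 / 25 * NK b ε w by positivity)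
    linarith
  have h8 : m * |ip w ((BB l E V - cvM b) *ᵥ w)| ≤ m * (1 / 4 * NK b ε w) := by
    have h9 : m * (9 / 80 * NK b ε w) + m * (1 / 25 * NK b ε w) ≤ m * (1 / 4 * NK b ε w) := by
      rw [← mul_add]
      refine mul_le_mul_of_nonneg_left ?_ hm0.le
      linarith
    linarith
  exact le_of_mul_le_mul_left h8 hm0

/-! ### the probability of the bad pairs -/

theorem prob_badD (hM : MeasStmt) {l : ℕ} {z μ E : ℝ} {b : Tor d M → ℝ} {ε s ρ : ℝ} {v : ℝ≥0}
    {q : ℝ≥0∞} (h : ∀ V : Tor d M → ℝ, FlatD (1 / 50) z μ V →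
      gau d M v {D | (∀ y, |D y| ≤ s) ∧ ∃ w, ρ * NK b ε w < |dB l E V D w|} ≤ q) :
    ((gau d M v).prod (gau d M v)) (badD l z μ E b ε s ρ) ≤ q := by
  rw [Measure.prod_apply (meas_badD hM l z μ E b ε s ρ)]
  calc ∫⁻ V, gau d M v (Prod.mk V ⁻¹' badD l z μ E b ε s ρ) ∂(gau d M v) ≤
        ∫⁻ _, q ∂(gau d M v) := by
        refine lintegral_mono fun V => ?_
        by_cases hV : FlatD (1 / 50) z μ V
        · refine (measure_mono ?_).trans (h V hV)
          rintro D ⟨_, h2⟩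
          exact h2
        · have : Prod.mk V ⁻¹' badD l z μ E b ε s ρ = ∅ := by
            ext D
            simp only [Set.mem_preimage, Set.mem_empty_iff_false, iff_false]
            rintro ⟨h1, _⟩
            exact hV h1
          rw [this, measure_empty]
          exact bot_le
    _ = q := by rw [lintegral_const, measure_univ, mul_one]

/-- the bad pairs at the angle `a` -/
def badP (l : ℕ) (z μ E : ℝ) (b : Tor d M → ℝ) (ε ρ a : ℝ) :
    Set ((Tor d M → ℝ) × (Tor d M → ℝ)) :=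
  {q | ¬ (FlatD (1 / 50) z μ (rotV a q.1 q.2) ∧
    ∀ w, |dB l E (rotV a q.1 q.2) (rotD a q.1 q.2) w| ≤ ρ * NK b ε w)}

theorem prob_badP (hM : MeasStmt) (hR : RotStmt) {l : ℕ} {z μ E : ℝ} {b : Tor d M → ℝ}
    {ε s ρ : ℝ} {v : ℝ≥0} {q1 q2 q3 : ℝ≥0∞} (a : ℝ)
    (h1 : gau d M v (Gd d M (1 / 50) z μ)ᶜ ≤ q1)
    (h2 : gau d M v {D | ¬ ∀ y, |D y| ≤ s} ≤ q2)
    (h : ∀ V : Tor d M → ℝ, FlatD (1 / 50) z μ V →
      gau d M v {D | (∀ y, |D y| ≤ s) ∧ ∃ w, ρ * NK b ε w < |dB l E V D w|} ≤ q3) :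
    ((gau d M v).prod (gau d M v)) (badP l z μ E b ε ρ a) ≤ q1 + q2 + q3 := by
  have hmG : MeasurableSet (Gd d M (1 / 50) z μ) := (hM d M l E (1 / 50) z μ).2.2
  have hmD : MeasurableSet {D : Tor d M → ℝ | ¬ ∀ y, |D y| ≤ s} := by
    refine MeasurableSet.compl (s := {D : Tor d M → ℝ | ∀ y, |D y| ≤ s}) ?_
    have : {D : Tor d M → ℝ | ∀ y, |D y| ≤ s} = ⋂ y, {D | |D y| ≤ s} := by
      ext D
      constructor
      · intro h
        exact Set.mem_iInter.2 h
      · intro h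
        have h2 := Set.mem_iInter.1 h
        exact h2
    rw [this]
    exact MeasurableSet.iInter fun y => measurableSet_le (measurable_pi_apply y).norm
      measurable_const
  have hrot := hR (Tor d M) v a
  have hsub : badP l z μ E b ε ρ a ⊆
      (fun q : (Tor d M → ℝ) × (Tor d M → ℝ) => (rotV a q.1 q.2, rotD a q.1 q.2)) ⁻¹'
        (((Gd d M (1 / 50) z μ)ᶜ ×ˢ Set.univ) ∪ (Set.univ ×ˢ {D | ¬ ∀ y, |D y| ≤ s}) ∪
          badD l z μ E b ε s ρ) := by
    rintro q hq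
    by_cases c1 : FlatD (1 / 50) z μ (rotV a q.1 q.2)
    · by_cases c2 : ∀ y, |rotD a q.1 q.2 y| ≤ s
      · refine Or.inr ⟨c1, c2, ?_⟩
        by_contra hcon
        push Not at hcon
        exact hq ⟨c1, hcon⟩
      · exact Or.inl (Or.inr ⟨Set.mem_univ _, c2⟩)
    · exact Or.inl (Or.inl ⟨c1, Set.mem_univ _⟩)
  refine (measure_mono hsub).trans ?_
  have hmS := ((hmG.compl.prod MeasurableSet.univ).union (MeasurableSet.univ.prod hmD)).union
    (meas_badD hM l z μ E b ε s ρ)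
  have e := hrot.measure_preimage hmS.nullMeasurableSet
  refine (le_of_eq e).trans ?_
  refine (measure_union_le _ _).trans (add_le_add ((measure_union_le _ _).trans
    (add_le_add ?_ ?_)) (prob_badD hM h))
  · have := Measure.prod_prod (μ := gau d M v) (ν := gau d M v)
      ((Gd d M (1 / 50) z μ)ᶜ) Set.univ
    rw [measure_univ, mul_one] at this
    exact (le_of_eq this).trans h1
  · have := Measure.prod_prod (μ := gau d M v) (ν := gau d M v)
      Set.univ {D : Tor d M → ℝ | ¬ ∀ y, |D y| ≤ s}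
    rw [measure_univ, one_mul] at this
    exact (le_of_eq this).trans h2

/-- Markov inequality for sections -/
theorem markov {X : Type} [MeasurableSpace X] (P : Measure X) [IsProbabilityMeasure P]
    (S : Set (X × X)) (hS : MeasurableSet S) {q : ℝ≥0∞} (hq : (P.prod P) S ≤ q) {c : ℝ}
    (hc : 0 < c) :
    P {x | ENNReal.ofReal c ≤ P (Prod.mk x ⁻¹' S)} ≤ q / ENNReal.ofReal c := by
  have h1 := meas_ge_le_lintegral_div (μ := P)
    (measurable_measure_prodMk_left (ν := P) hS).aemeasurable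
    (ε := ENNReal.ofReal c) (by simpa using hc) ENNReal.ofReal_ne_top
  refine h1.trans (ENNReal.div_le_div_right ?_ _)
  rw [← Measure.prod_apply hS]
  exact hq

/-! ### constants -/

theorem exp_pow_le {K : ℕ} (hM : 3 ≤ M) :
    (M : ℝ) ^ d * Real.exp (-(((K + d : ℕ) : ℝ) * Real.log M)) = 1 / (M : ℝ) ^ K := by
  have hM0 : (0 : ℝ) < M := by positivity
  rw [Real.exp_neg, Real.exp_nat_mul, Real.exp_log hM0, pow_add]
  field_simp

theorem log_ge_one (hM : 3 ≤ M) : 1 ≤ Real.log M := by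
  have h3 : (3 : ℝ) ≤ M := by exact_mod_cast hM
  rw [Real.le_log_iff_exp_le (by linarith)]
  have := Real.exp_one_lt_d9
  linarith

theorem avg (hM : MeasStmt) (hKhb : KhbStmt) (hRot : RotStmt) (hPath : PathStmt)
    (hG : GapStmt) (hF : FourStmt) : AvgStmt := by
  intro d hd K
  obtain ⟨C1, hC1, hPath⟩ := hPath d hd
  obtain ⟨C2, hC2, hKhb⟩ := hKhb d hd
  refine ⟨300 * (C1 + 2) + 1 + 19200 * ((K + d : ℕ) : ℝ) ^ 2 * C2, by positivity, ?_⟩
  intro M l _ z μ E δ v b ε Cg p hPar hδ0 hδ hv hbe hmean hε hε2 hlM hCg hKG hbig hp0 hp2 hGd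
  have hM3 := hPar.hM
  have hL := log_ge_one hM3
  set L := Real.log M with hLdef
  set A : ℝ := ((K + d : ℕ) : ℝ) with hA
  have hA1 : 1 ≤ A := by
    rw [hA]
    exact_mod_cast (show 1 ≤ K + d by omega)
  have hAL : 1 ≤ A * L := by nlinarith
  have hv0 : (0 : ℝ) < v := by exact_mod_cast hv
  have hMr : (3 : ℝ) ≤ M := by exact_mod_cast hM3
  have hM0 : (0 : ℝ) < M := by linarith
  have hl1 : (1 : ℝ) ≤ l := by exact_mod_cast hPar.hl
  have hl0 : (0 : ℝ) < l := by linarith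
  -- the parameters
  set s := Real.sqrt (2 * A * v * L) with hs
  have hs2 : s ^ 2 = 2 * A * v * L := Real.sq_sqrt (by positivity)
  set pk := ⌈A * L⌉₊ with hpk
  have hpk1 : 1 ≤ pk := Nat.one_le_ceil_iff.2 (by linarith)
  have hpk2 : A * L ≤ pk := Nat.le_ceil _
  have hpk3 : (pk : ℝ) ≤ 2 * (A * L) := by
    have := Nat.ceil_lt_add_one (show 0 ≤ A * L by linarith)
    rw [← hpk] at this
    linarith
  set X : ℝ := Cg * v * L ^ (d + 2) * Real.log (1 / ε) * (l : ℝ) ^ 4 with hX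
  have hlogε : 0 ≤ Real.log (1 / ε) := by
    refine Real.log_nonneg ?_
    rw [le_div_iff₀ hε]
    linarith
  have hX0 : 0 ≤ X := by positivity
  have hld : (0 : ℝ) < (l : ℝ) ^ d := by positivity
  have hbig2 : 19200 * A ^ 2 * C2 * X ≤ ε * (l : ℝ) ^ d := by
    have e : (300 * (C1 + 2) + 1 + 19200 * A ^ 2 * C2) * Cg * v * L ^ (d + 2) *
        Real.log (1 / ε) * (l : ℝ) ^ 4 = (300 * (C1 + 2) + 1) * X + 19200 * A ^ 2 * C2 * X := by
      rw [hX]; ring
    rw [e] at hbig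
    have : 0 ≤ (300 * (C1 + 2) + 1) * X := by positivity
    linarith
  have hbase : (pk : ℝ) * C2 * Cg * s ^ 2 * L ^ d * Real.log (1 / ε) * (l : ℝ) ^ 4 /
      ((l : ℝ) ^ d * ε * (1 / 40) ^ 2) ≤ Real.exp (-1) := by
    have h1 : (pk : ℝ) * C2 * Cg * s ^ 2 * L ^ d * Real.log (1 / ε) * (l : ℝ) ^ 4 ≤
        4 * A ^ 2 * C2 * X := by
      have e1 : (pk : ℝ) * C2 * Cg * s ^ 2 * L ^ d * Real.log (1 / ε) * (l : ℝ) ^ 4 =
          pk * (C2 * Cg * (2 * A * v * L) * L ^ d * Real.log (1 / ε) * (l : ℝ) ^ 4) := by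
        rw [hs2]; ring
      have e2 : 4 * A ^ 2 * C2 * X = 2 * (A * L) *
          (C2 * Cg * (2 * A * v * L) * L ^ d * Real.log (1 / ε) * (l : ℝ) ^ 4) := by
        rw [hX]; ring
      rw [e1, e2]
      exact mul_le_mul_of_nonneg_right hpk3 (by positivity)
    have h2 : Real.exp 1 ≤ 3 := by
      have := Real.exp_one_lt_d9
      linarith
    rw [Real.exp_neg, div_le_iff₀ (by positivity)]
    have h3 : (1 : ℝ) / 3 ≤ (Real.exp 1)⁻¹ := by
      rw [one_div]
      exact inv_anti₀ (Real.exp_pos 1) h2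
    have h4 : 1 / 3 * ((l : ℝ) ^ d * ε * (1 / 40) ^ 2) ≤
        (Real.exp 1)⁻¹ * ((l : ℝ) ^ d * ε * (1 / 40) ^ 2) :=
      mul_le_mul_of_nonneg_right h3 (by positivity)
    have h5 : 4 * A ^ 2 * C2 * X ≤ 1 / 3 * ((l : ℝ) ^ d * ε * (1 / 40) ^ 2) := by
      linarith
    linarith
  have hdir : ∀ V : Tor d M → ℝ, FlatD (1 / 50) z μ V →
      gau d M v {D | (∀ y, |D y| ≤ s) ∧ ∃ w, 1 / 40 * NK b ε w < |dB l E V D w|} ≤
        ENNReal.ofReal (1 / (M : ℝ) ^ K) := by
    intro V hV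
    refine (hKhb M l z μ E V b ε Cg s (1 / 40) v pk hPar hV hbe hε hε2 hCg hKG
      (Real.sqrt_nonneg _) (by norm_num) hpk1).trans (ENNReal.ofReal_le_ofReal ?_)
    rw [← exp_pow_le (d := d) (K := K) hM3]
    refine mul_le_mul_of_nonneg_left ?_ (by positivity)
    refine (pow_le_pow_left₀ (by positivity) hbase pk).trans ?_
    rw [← Real.exp_nat_mul]
    refine Real.exp_le_exp.2 ?_
    rw [mul_neg_one]
    linarith
  have htail : gau d M v {D | ¬ ∀ y, |D y| ≤ s} ≤ ENNReal.ofReal (2 * (1 / (M : ℝ) ^ K)) := by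
    refine (gau_tail hv (Real.sqrt_nonneg _)).trans (ENNReal.ofReal_le_ofReal (le_of_eq ?_))
    rw [← exp_pow_le (d := d) (K := K) hM3, hs2]
    have : -(2 * A * v * L / (2 * v)) = -(A * L) := by field_simp
    rw [this]
    ring
  have hsubG : Gd d M δ z μ ⊆ Gd d M (1 / 50) z μ := fun V hV => flat_mono hPar.hμ hδ hV
  have hflat : gau d M v (Gd d M (1 / 50) z μ)ᶜ ≤ ENNReal.ofReal p :=
    (measure_mono (Set.compl_subset_compl.2 hsubG)).trans hGd
  have hK0 : (0 : ℝ) ≤ 1 / (M : ℝ) ^ K := by positivity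
  set q0 : ℝ := p + 3 * (1 / (M : ℝ) ^ K) with hq0
  have hq00 : 0 ≤ q0 := by positivity
  have hpair : ∀ a : ℝ, ((gau d M v).prod (gau d M v)) (badP l z μ E b ε (1 / 40) a) ≤
      ENNReal.ofReal q0 := by
    intro a
    refine (prob_badP hM hRot a hflat htail hdir).trans (le_of_eq ?_)
    rw [← ENNReal.ofReal_add hp0 (by positivity), ← ENNReal.ofReal_add (by positivity) hK0]
    congr 1
    rw [hq0]
    ring
  -- the number of steps
  set N := ⌈C1 * (l : ℝ) ^ 4 / ε⌉₊ with hN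
  have hN1 : 1 ≤ N := Nat.one_le_ceil_iff.2 (by positivity)
  have hN2 : C1 * (l : ℝ) ^ 4 / ε ≤ N := Nat.le_ceil _
  have hN3 : (N : ℝ) ≤ C1 * (l : ℝ) ^ 4 / ε + 1 :=
    (Nat.ceil_lt_add_one (by positivity)).le
  have hεM : 1 / ε ≤ M := by
    rw [div_le_iff₀ hε]
    linarith
  have hN4 : ((N + 1 : ℕ) : ℝ) ≤ (C1 + 2) * (M : ℝ) ^ 5 := by
    have hlM' : (l : ℝ) ≤ M := by nlinarith
    have h1 : (l : ℝ) ^ 4 ≤ (M : ℝ) ^ 4 := pow_le_pow_left₀ hl0.le hlM' 4
    have h2 : C1 * (l : ℝ) ^ 4 / ε ≤ C1 * (M : ℝ) ^ 5 := by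
      calc C1 * (l : ℝ) ^ 4 / ε = C1 * (l : ℝ) ^ 4 * (1 / ε) := by ring
        _ ≤ C1 * (M : ℝ) ^ 4 * M :=
            mul_le_mul (mul_le_mul_of_nonneg_left h1 hC1.le) hεM (by positivity) (by positivity)
        _ = C1 * (M : ℝ) ^ 5 := by ring
    have h3 : (1 : ℝ) ≤ (M : ℝ) ^ 5 := one_le_pow₀ (by linarith)
    push_cast
    linarith
  -- the bad set of pairs
  set S : Set ((Tor d M → ℝ) × (Tor d M → ℝ)) :=
    ⋃ j ∈ Finset.range (N + 1), badP l z μ E b ε (1 / 40) (ang N j) with hS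
  have hSq : ((gau d M v).prod (gau d M v)) S ≤ ENNReal.ofReal (((N + 1 : ℕ) : ℝ) * q0) := by
    refine (measure_biUnion_finset_le _ _).trans ?_
    refine (Finset.sum_le_sum fun j _ => hpair (ang N j)).trans (le_of_eq ?_)
    rw [Finset.sum_const, Finset.card_range, nsmul_eq_mul, ENNReal.ofReal_mul (by positivity),
      ENNReal.ofReal_natCast]
  set S' := toMeasurable ((gau d M v).prod (gau d M v)) S with hS'
  have hS'm : MeasurableSet S' := measurableSet_toMeasurable _ _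
  have hSS' : S ⊆ S' := subset_toMeasurable _ _
  have hS'q : ((gau d M v).prod (gau d M v)) S' ≤ ENNReal.ofReal (((N + 1 : ℕ) : ℝ) * q0) := by
    rw [hS', measure_toMeasurable]
    exact hSq
  have hmk := markov (gau d M v) S' hS'm hS'q (c := ε / 100) (by positivity)
  -- the probability of the good set
  have hmG : MeasurableSet (Gd d M δ z μ) := (hM d M l E δ z μ).2.2
  have hhalf : 1 / 2 ≤ (gau d M v (Gd d M δ z μ)).toReal := by
    have h1 : (gau d M v).real (Gd d M δ z μ)ᶜ ≤ p := by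
      have := ENNReal.toReal_mono ENNReal.ofReal_ne_top hGd
      rwa [ENNReal.toReal_ofReal hp0] at this
    have h2 := probReal_compl_eq_one_sub (μ := gau d M v) hmG
    have h3 : (gau d M v (Gd d M δ z μ)).toReal = (gau d M v).real (Gd d M δ z μ) := rfl
    rw [h3]
    linarith
  have hincl : {V : Tor d M → ℝ | ¬ (FlatD δ z μ V ∧
      ∀ w, |ip w ((BB l E V - cvM b) *ᵥ w)| ≤ 1 / 4 * NK b ε w)} ⊆
      (Gd d M δ z μ)ᶜ ∪ {V | ENNReal.ofReal (ε / 100) ≤ gau d M v (Prod.mk V ⁻¹' S')} := by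
    intro V hV
    by_contra hcon
    rw [Set.mem_union, not_or] at hcon
    obtain ⟨c1, c2⟩ := hcon
    have hVf : FlatD δ z μ V := by
      by_contra h
      exact c1 h
    have c3 : gau d M v (Prod.mk V ⁻¹' S') < ENNReal.ofReal (ε / 100) := not_le.1 c2
    refine hV ⟨hVf, fun w => ?_⟩
    refine good_V hM hG hF hPar hδ hmean hε hhalf hVf (B := Prod.mk V ⁻¹' S')
      (measurable_prodMk_left hS'm) ?_ ?_ w
    · have := ENNReal.toReal_mono ENNReal.ofReal_ne_top c3.le
      rwa [ENNReal.toReal_ofReal (by positivity)] at this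
    · intro V' hV' w
      have hnot : ∀ j ∈ Finset.range (N + 1), (V, V') ∉ badP l z μ E b ε (1 / 40) (ang N j) := by
        intro j hj hb
        exact hV' (hSS' (Set.mem_biUnion hj hb))
      have hok : ∀ j ≤ N, FlatD (1 / 50) z μ (rotV (ang N j) V V') ∧
          ∀ w, |dB l E (rotV (ang N j) V V') (rotD (ang N j) V V') w| ≤ 1 / 40 * NK b ε w := by
        intro j hj
        have := hnot j (Finset.mem_range.2 (by omega))
        unfold badP at this
        simpa only [Set.mem_ofPred_eq, not_not] using this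
      have h9 := hPath M l z μ E b ε (1 / 40) N V V' hPar hε (by linarith) (by norm_num) hN1 hN2
        (fun j hj => (hok j hj).1) (fun j hj => (hok j hj.le).2) w
      refine h9.trans (le_of_eq ?_)
      ring
  refine (measure_mono hincl).trans ((measure_union_le _ _).trans ((add_le_add hGd hmk).trans ?_))
  rw [← ENNReal.ofReal_div_of_pos (by positivity), ← ENNReal.ofReal_add hp0 (by positivity)]
  refine ENNReal.ofReal_le_ofReal ?_
  have hMK : 0 ≤ p + 1 / (M : ℝ) ^ K := by positivity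
  have e1 : ((N + 1 : ℕ) : ℝ) * q0 / (ε / 100) = 100 * (((N + 1 : ℕ) : ℝ) * q0 * (1 / ε)) := by
    field_simp
  have h1 : q0 ≤ 3 * (p + 1 / (M : ℝ) ^ K) := by
    rw [hq0]
    linarith
  have h2 : ((N + 1 : ℕ) : ℝ) * q0 * (1 / ε) ≤
      (C1 + 2) * (M : ℝ) ^ 5 * (3 * (p + 1 / (M : ℝ) ^ K)) * M :=
    mul_le_mul (mul_le_mul hN4 h1 hq00 (by positivity)) hεM (by positivity) (by positivity)
  have h3 : (M : ℝ) ^ 5 * M ≤ (M : ℝ) ^ 7 := by
    have : (M : ℝ) ^ 7 = (M : ℝ) ^ 5 * M * M := by ring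
    rw [this]
    exact le_mul_of_one_le_right (by positivity) (by linarith)
  have h4 : (1 : ℝ) ≤ (M : ℝ) ^ 7 := one_le_pow₀ (by linarith)
  have h5 : p ≤ (M : ℝ) ^ 7 * (p + 1 / (M : ℝ) ^ K) := by
    calc p ≤ p + 1 / (M : ℝ) ^ K := by linarith
      _ ≤ (M : ℝ) ^ 7 * (p + 1 / (M : ℝ) ^ K) := le_mul_of_one_le_left hMK h4
  have h6 : (C1 + 2) * (M : ℝ) ^ 5 * (3 * (p + 1 / (M : ℝ) ^ K)) * M ≤
      3 * (C1 + 2) * ((M : ℝ) ^ 7 * (p + 1 / (M : ℝ) ^ K)) := by
    calc (C1 + 2) * (M : ℝ) ^ 5 * (3 * (p + 1 / (M : ℝ) ^ K)) * M =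
          3 * (C1 + 2) * ((M : ℝ) ^ 5 * M * (p + 1 / (M : ℝ) ^ K)) := by ring
      _ ≤ _ := mul_le_mul_of_nonneg_left (mul_le_mul_of_nonneg_right h3 hMK) (by positivity)
  have h7 : 0 ≤ 19200 * A ^ 2 * C2 * ((M : ℝ) ^ 7 * (p + 1 / (M : ℝ) ^ K)) := by positivity
  calc p + ((N + 1 : ℕ) : ℝ) * q0 / (ε / 100) ≤
        (M : ℝ) ^ 7 * (p + 1 / (M : ℝ) ^ K) +
          100 * (3 * (C1 + 2) * ((M : ℝ) ^ 7 * (p + 1 / (M : ℝ) ^ K))) := by
        rw [e1]
        linarith
    _ ≤ (300 * (C1 + 2) + 1 + 19200 * A ^ 2 * C2) * (M : ℝ) ^ 7 * (p + 1 / (M : ℝ) ^ K) := by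
        linarith

end Pool.Agent.IR.H85A
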