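import Pool.Agent.Helper41_IR.Stmts

/-!
# IR: module MEAS, measurability
-/

set_option autoImplicit false

open MeasureTheory ProbabilityTheory

open scoped ENNReal NNReal BigOperators

noncomputable section

namespace Pool.Agent.IR.H85

open Matrix Pool.Agent.Anderson Pool.Agent.Loc Pool.Agent.BED

variable {d M : ℕ} [NeZero M]

theorem meas_inv {X n : Type} [Fintype n] [DecidableEq n] [TopologicalSpace X] [MeasurableSpace X]
    [OpensMeasurableSpace X] (A : X → Matrix n n ℝ) (hA : Continuous A) (x y : n) :
    Measurable fun V => (A V)⁻¹ x y := by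
  have h : (fun V => (A V)⁻¹ x y) = fun V => (A V).det⁻¹ * (A V).adjugate x y := by
    funext V
    rw [Matrix.inv_def, Ring.inverse_eq_inv']
    rfl
  rw [h]
  refine Measurable.mul ?_ ?_
  · exact (Continuous.matrix_det hA).measurable.inv
  · exact ((Continuous.matrix_adjugate hA).matrix_elem x y).measurable

theorem cont_AM (E : ℝ) : Continuous fun V : Tor d M → ℝ => AM E V := by
  unfold AM
  refine Continuous.sub ?_ continuous_const
  refine Continuous.matrix_diagonal ?_
  fun_prop

theorem cont_AP (l : ℕ) (E : ℝ) : Continuous fun V : Tor d M → ℝ => AP l E V := by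
  unfold AP
  exact (cont_AM E).add continuous_const

theorem meas_GP (l : ℕ) (E : ℝ) (x y : Tor d M) :
    Measurable fun V : Tor d M → ℝ => GP l E V x y :=
  meas_inv _ (cont_AP l E) x y

theorem meas_BB (l : ℕ) (E : ℝ) (x y : Tor d M) :
    Measurable fun V : Tor d M → ℝ => BB l E V x y := by
  have h : (fun V : Tor d M → ℝ => BB l E V x y) = fun V => sL d l *
      ∑ w, (∑ u, QM d M l x u * GP l E V u w) * (QM d M l)ᵀ w y := by
    funext V
    unfold BB
    rw [Matrix.smul_apply, smul_eq_mul, Matrix.mul_apply]
    simp only [Matrix.mul_apply]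
  rw [h]
  refine Measurable.const_mul ?_ _
  refine Finset.measurable_sum _ fun w _ => ?_
  refine Measurable.mul_const ?_ _
  refine Finset.measurable_sum _ fun u _ => ?_
  exact (meas_GP l E u w).const_mul _

theorem meas_DD (z : ℝ) (x : Tor d M) : Measurable fun V : Tor d M → ℝ => DD z V x := by
  unfold DD GM
  exact Finset.measurable_sum _ fun y _ => meas_inv _ (cont_AM z) x y

theorem meas_posDef (z : ℝ) : MeasurableSet {V : Tor d M → ℝ | (AM z V).PosDef} := by
  have h : {V : Tor d M → ℝ | (AM z V).PosDef} =
      {V : Tor d M → ℝ | (AM z V).PosSemidef} ∩ {V : Tor d M → ℝ | (AM z V).det ≠ 0} := by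
    ext V
    simp only [Set.mem_ofPred_eq, Set.mem_inter_iff]
    constructor
    · intro hV
      exact ⟨hV.posSemidef, (hV.posSemidef.posDef_iff_det_ne_zero).1 hV⟩
    · rintro ⟨h1, h2⟩
      exact (h1.posDef_iff_det_ne_zero).2 h2
  rw [h]
  refine MeasurableSet.inter ?_ ?_
  · refine IsClosed.measurableSet ?_
    have h2 : {V : Tor d M → ℝ | (AM z V).PosSemidef} =
        {V : Tor d M → ℝ | (AM z V)ᴴ = AM z V} ∩
          ⋂ u : Tor d M → ℝ, {V : Tor d M → ℝ | 0 ≤ star u ⬝ᵥ (AM z V *ᵥ u)} := by
      ext V
      simp only [Set.mem_ofPred_eq, Set.mem_inter_iff, Set.mem_iInter]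
      rw [Matrix.posSemidef_iff_dotProduct_mulVec]
      rfl
    rw [h2]
    refine IsClosed.inter ?_ ?_
    · exact isClosed_eq (cont_AM z).matrix_conjTranspose (cont_AM z)
    · refine isClosed_iInter fun u => ?_
      refine isClosed_le continuous_const ?_
      exact continuous_const.dotProduct ((cont_AM z).matrix_mulVec continuous_const)
  · have h3 : Measurable fun V : Tor d M → ℝ => (AM z V).det :=
      (Continuous.matrix_det (cont_AM z)).measurable
    exact h3 (measurableSet_singleton (0 : ℝ)).compl

theorem meas : MeasStmt := by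
  intro d M l _ E δ z μ
  refine ⟨fun x y => meas_GP l E x y, fun x y => meas_BB l E x y, ?_⟩
  unfold Gd FlatD
  have h1 : MeasurableSet {V : Tor d M → ℝ | ∀ x, -1 ≤ V x} := by
    rw [Set.ofPred_forall]
    exact MeasurableSet.iInter fun x => measurableSet_le measurable_const (measurable_pi_apply x)
  have h2 : MeasurableSet {V : Tor d M → ℝ | ∀ x, |DD z V x - μ| ≤ δ * μ} := by
    rw [Set.ofPred_forall]
    refine MeasurableSet.iInter fun x => measurableSet_le ?_ measurable_const
    exact ((meas_DD z x).sub_const μ).norm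
  exact h1.inter ((meas_posDef z).inter h2)

end Pool.Agent.IR.H85
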