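import Pool.Agent.Helper41_IR.Stmts

/-!
# IR: module ROT, rotation invariance of pairs of Gaussian vectors
-/

set_option autoImplicit false

open MeasureTheory ProbabilityTheory

open scoped ENNReal NNReal BigOperators

noncomputable section

namespace Pool.Agent.IR.H85

theorem rot2 (v : ℝ≥0) (a : ℝ) :
    MeasurePreserving (fun q : ℝ × ℝ => (Real.cos a * q.1 + Real.sin a * q.2,
      -Real.sin a * q.1 + Real.cos a * q.2))
      ((gaussianReal 0 v).prod (gaussianReal 0 v)) ((gaussianReal 0 v).prod (gaussianReal 0 v)) := by
  have h := IsGaussian.map_rotation_eq_self (μ := gaussianReal 0 v)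
    (by simp [integral_id_gaussianReal]) a
  refine ⟨by fun_prop, ?_⟩
  exact h

theorem rot : RotStmt := by
  intro n _ v a
  have h1 := measurePreserving_arrowProdEquivProdArrow ℝ ℝ n (fun _ => gaussianReal 0 v)
    (fun _ => gaussianReal 0 v)
  have h2 := measurePreserving_pi (fun _ : n => (gaussianReal 0 v).prod (gaussianReal 0 v))
    (fun _ : n => (gaussianReal 0 v).prod (gaussianReal 0 v)) (fun _ => rot2 v a)
  have h3 := (h1.comp h2).comp (h1.symm _)
  exact h3

end Pool.Agent.IR.H85
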