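import Pool.Agent.Helper41_IR.Stmts

/-!
# IR: module SYM, the regions of momentum space
-/

set_option autoImplicit false

open MeasureTheory ProbabilityTheory

open scoped ENNReal NNReal BigOperators

noncomputable section

namespace Pool.Agent.IR.H85

open Matrix Pool.Agent.Anderson Pool.Agent.Loc Pool.Agent.BED

variable {d M : ℕ} [NeZero M]

/-! ### calculus -/

theorem cos_upper0 {x : ℝ} (hx : 0 ≤ x) : Real.cos x ≤ 1 - x ^ 2 / 2 + x ^ 4 / 24 := by
  let g : ℝ → ℝ := fun t => 1 - t ^ 2 / 2 + t ^ 4 / 24 - Real.cos t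
  have hd : ∀ t : ℝ, HasDerivAt g (-t + t ^ 3 / 6 + Real.sin t) t := by
    intro t
    have h1 := ((((hasDerivAt_const t (1 : ℝ)).sub (((hasDerivAt_id t).pow 2).div_const 2)).add
      (((hasDerivAt_id t).pow 4).div_const 24)).sub (Real.hasDerivAt_cos t))
    refine h1.congr_deriv ?_
    simp
    ring
  have hm : MonotoneOn g (Set.Ici 0) := by
    refine monotoneOn_of_deriv_nonneg (convex_Ici 0)
      (fun t _ => (hd t).continuousAt.continuousWithinAt)
      (fun t _ => (hd t).differentiableAt.differentiableWithinAt) ?_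
    intro t ht
    rw [interior_Ici] at ht
    rw [(hd t).deriv]
    have := Real.sin_gt_sub_cube (x := t) ht
    linarith
  have h := hm (Set.mem_Ici.2 le_rfl) (Set.mem_Ici.2 hx) hx
  simp only [g] at h
  norm_num at h
  linarith

theorem cos_upper (x : ℝ) : Real.cos x ≤ 1 - x ^ 2 / 2 + x ^ 4 / 24 := by
  rcases le_total 0 x with h | h
  · exact cos_upper0 h
  · have := cos_upper0 (x := -x) (by linarith)
    rw [Real.cos_neg] at this
    have e1 : (-x) ^ 2 = x ^ 2 := by ring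
    have e2 : (-x) ^ 4 = x ^ 4 := by ring
    rw [e1, e2] at this
    exact this

theorem abs_cos_four (x : ℝ) : |1 - Real.cos x - x ^ 2 / 2| ≤ x ^ 4 / 24 := by
  have h1 := cos_upper x
  have h2 := Real.one_sub_sq_div_two_le_cos (x := x)
  have h3 : 0 ≤ x ^ 4 / 24 := by positivity
  rw [abs_le]
  constructor <;> linarith

theorem abs_one_sub_cos (x : ℝ) : |1 - Real.cos x| ≤ x ^ 2 / 2 := by
  have h1 := Real.one_sub_sq_div_two_le_cos (x := x)
  have h2 := Real.cos_le_one x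
  rw [abs_le]
  constructor
  · have : 0 ≤ x ^ 2 / 2 := by positivity
    linarith
  · linarith

theorem abs_mul_sin (x : ℝ) : |x * Real.sin x - x ^ 2| ≤ x ^ 4 / 6 := by
  have h := Real.abs_sub_sin_le x
  have e : x * Real.sin x - x ^ 2 = -(x * (x - Real.sin x)) := by ring
  rw [e, abs_neg, abs_mul]
  calc |x| * |x - Real.sin x| ≤ |x| * (|x| ^ 3 / 6) := mul_le_mul_of_nonneg_left h (abs_nonneg _)
    _ = |x| ^ 4 / 6 := by ring
    _ = x ^ 4 / 6 := by rw [show |x| ^ 4 = x ^ 4 from (by decide : Even 4).pow_abs x]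

/-! ### rescaled variables -/

/-- rescaled momentum -/
def vt (l : ℕ) (θ : Tor d M) (i : Fin d) : ℝ := 2 * Real.pi * l * ((θ i).valMinAbs : ℝ) / M

/-- rescaled position -/
def hy (l : ℕ) (y : Tor d M) (i : Fin d) : ℝ := ((y i).valMinAbs : ℝ) / l

omit [NeZero M] in
theorem ph_eq {l : ℕ} (hl : 1 ≤ l) (θ y : Tor d M) : ph θ y = ∑ i, vt l θ i * hy l y i := by
  have hl0 : (l : ℝ) ≠ 0 := by positivity
  unfold ph vt hy
  rw [Finset.mul_sum, Finset.sum_div]
  refine Finset.sum_congr rfl fun i _ => ?_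
  field_simp

omit [NeZero M] in
theorem sum_abs_hy (l : ℕ) (y : Tor d M) : ∑ i, |hy l y i| = (nd y : ℝ) / l := by
  unfold hy nd
  rw [Nat.cast_sum, Finset.sum_div]
  refine Finset.sum_congr rfl fun i _ => ?_
  rw [abs_div, Nat.abs_cast]
  congr 1
  rw [Nat.cast_natAbs, Int.cast_abs]

omit [NeZero M] in
theorem abs_hy_le (l : ℕ) (y : Tor d M) (i : Fin d) : |hy l y i| ≤ (nd y : ℝ) / l := by
  rw [← sum_abs_hy]
  exact Finset.single_le_sum (f := fun i => |hy l y i|) (fun i _ => abs_nonneg _)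
    (Finset.mem_univ i)

omit [NeZero M] in
theorem abs_lin_le (l : ℕ) (y : Tor d M) (u : Fin d → ℝ) {t : ℝ} (h : ∀ i, |u i| ≤ t) :
    |∑ i, u i * hy l y i| ≤ t * ((nd y : ℝ) / l) := by
  rw [← sum_abs_hy, Finset.mul_sum]
  refine (Finset.abs_sum_le_sum_abs _ _).trans ?_
  refine Finset.sum_le_sum fun i _ => ?_
  rw [abs_mul]
  exact mul_le_mul_of_nonneg_right (h i) (abs_nonneg _)

omit [NeZero M] in
theorem abs_ph_le {l : ℕ} (hl : 1 ≤ l) (θ y : Tor d M) {t : ℝ} (h : ∀ i, |vt l θ i| ≤ t) :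
    |ph θ y| ≤ t * ((nd y : ℝ) / l) := by
  rw [ph_eq hl]
  exact abs_lin_le l y _ h

/-- weighted sums -/
theorem wsum_le (b : Tor d M → ℝ) (l : ℕ) {m : ℝ} (k : ℕ) (g : Tor d M → ℝ) {c : ℝ} (hc : 0 ≤ c)
    (hm : ∑ y, |b y| * ((nd y : ℝ) / l) ^ k ≤ m)
    (hg : ∀ y, |g y| ≤ c * ((nd y : ℝ) / l) ^ k) : |∑ y, b y * g y| ≤ c * m := by
  calc |∑ y, b y * g y| ≤ ∑ y, |b y * g y| := Finset.abs_sum_le_sum_abs _ _
    _ ≤ ∑ y, c * (|b y| * ((nd y : ℝ) / l) ^ k) := by
        refine Finset.sum_le_sum fun y _ => ?_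
        rw [abs_mul]
        calc |b y| * |g y| ≤ |b y| * (c * ((nd y : ℝ) / l) ^ k) :=
              mul_le_mul_of_nonneg_left (hg y) (abs_nonneg _)
          _ = c * (|b y| * ((nd y : ℝ) / l) ^ k) := by ring
    _ = c * ∑ y, |b y| * ((nd y : ℝ) / l) ^ k := by rw [Finset.mul_sum]
    _ ≤ c * m := mul_le_mul_of_nonneg_left hm hc

/-- the second moment in direction `θ` -/
def SS (b : Tor d M → ℝ) (θ : Tor d M) : ℝ := ∑ y, b y * (ph θ y) ^ 2

theorem bh_zero (b : Tor d M → ℝ) : bh b 0 = ∑ y, b y := by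
  unfold bh
  refine Finset.sum_congr rfl fun y _ => ?_
  rw [ph_zero_left, Real.cos_zero, mul_one]

theorem bh_nsmul (b : Tor d M → ℝ) (n : ℕ) (θ : Tor d M) :
    bh b (n • θ) = ∑ y, b y * Real.cos (n * ph θ y) := by
  unfold bh
  exact Finset.sum_congr rfl fun y _ => by rw [cos_ph_nsmul]

theorem pow_le_of_abs {x t z : ℝ} (h : |x| ≤ t * z) (k : ℕ) (hk : Even k) :
    x ^ k ≤ t ^ k * z ^ k := by
  rw [← mul_pow, ← hk.pow_abs]
  exact pow_le_pow_left₀ (abs_nonneg _) h k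

theorem taylor (b : Tor d M → ℝ) {l : ℕ} (hl : 1 ≤ l) {m : ℝ}
    (hm : ∑ y, |b y| * ((nd y : ℝ) / l) ^ 4 ≤ m) (n : ℕ) (θ : Tor d M) {t : ℝ} (ht : 0 ≤ t)
    (h : ∀ i, |vt l θ i| ≤ t) :
    |bh b 0 - bh b (n • θ) - (n : ℝ) ^ 2 * SS b θ / 2| ≤ (n * t) ^ 4 / 24 * m := by
  have e : bh b 0 - bh b (n • θ) - (n : ℝ) ^ 2 * SS b θ / 2 =
      ∑ y, b y * (1 - Real.cos (n * ph θ y) - (n * ph θ y) ^ 2 / 2) := by
    rw [bh_zero, bh_nsmul, SS, Finset.mul_sum, Finset.sum_div, ← Finset.sum_sub_distrib,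
      ← Finset.sum_sub_distrib]
    exact Finset.sum_congr rfl fun y _ => by ring
  rw [e]
  refine wsum_le b l 4 _ (by positivity) hm fun y => ?_
  refine (abs_cos_four _).trans ?_
  have h1 : |(n : ℝ) * ph θ y| ≤ (n * t) * ((nd y : ℝ) / l) := by
    rw [abs_mul, Nat.abs_cast, mul_assoc]
    exact mul_le_mul_of_nonneg_left (abs_ph_le hl θ y h) (Nat.cast_nonneg n)
  have h2 := pow_le_of_abs h1 4 (by decide)
  linarith

theorem quad (b : Tor d M → ℝ) {l : ℕ} (hl : 1 ≤ l) {m : ℝ}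
    (hm : ∑ y, |b y| * ((nd y : ℝ) / l) ^ 2 ≤ m) (θ : Tor d M) {t : ℝ} (ht : 0 ≤ t)
    (h : ∀ i, |vt l θ i| ≤ t) : |bh b 0 - bh b θ| ≤ t ^ 2 / 2 * m := by
  have e : bh b 0 - bh b θ = ∑ y, b y * (1 - Real.cos (ph θ y)) := by
    rw [bh_zero, bh, ← Finset.sum_sub_distrib]
    exact Finset.sum_congr rfl fun y _ => by ring
  rw [e]
  refine wsum_le b l 2 _ (by positivity) hm fun y => ?_
  refine (abs_one_sub_cos _).trans ?_
  have h2 := pow_le_of_abs (abs_ph_le hl θ y h) 2 (by decide)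
  linarith

theorem ph_ev {l : ℕ} (hl : 1 ≤ l) (hM : 3 ≤ M) (θ : Tor d M) (i : Fin d) :
    ph θ (ev i) = vt l θ i / l := by
  have hl0 : (l : ℝ) ≠ 0 := by positivity
  have h1 : ((1 : ZMod M).valMinAbs) = 1 := by
    have := ZMod.valMinAbs_natCast_of_le_half (n := M) (a := 1) (by omega)
    simpa using this
  unfold ph vt
  rw [Finset.sum_eq_single i]
  · unfold ev
    rw [Pi.single_eq_same, h1]
    push_cast
    field_simp
  · intro j _ hj
    unfold ev
    rw [Pi.single_eq_of_ne hj]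
    simp
  · simp

theorem om_ge {l : ℕ} (hl : 1 ≤ l) (hM : 3 ≤ M) (n : ℕ) (θ : Tor d M) (i : Fin d)
    (hx : |(n : ℝ) * vt l θ i| ≤ Real.pi * l) :
    4 / Real.pi ^ 2 * (n * vt l θ i) ^ 2 ≤ (l : ℝ) ^ 2 * om (n • θ) := by
  have hl0 : (0 : ℝ) < l := by positivity
  have e1 : Real.cos (2 * Real.pi * (((n • θ) i).valMinAbs : ℝ) / M) =
      Real.cos (n * vt l θ i / l) := by
    have h1 := cos_ph_nsmul n θ (ev i)
    rw [ph_ev hl hM, ph_ev hl hM] at h1
    unfold vt at h1 ⊢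
    rw [show 2 * Real.pi * (((n • θ) i).valMinAbs : ℝ) / M =
      2 * Real.pi * l * (((n • θ) i).valMinAbs : ℝ) / M / l from by field_simp, h1]
    congr 1
    field_simp
  have h2 : 2 * (1 - Real.cos (n * vt l θ i / l)) ≤ om (n • θ) := by
    rw [← e1]
    unfold om
    exact Finset.single_le_sum
      (f := fun i => 2 * (1 - Real.cos (2 * Real.pi * (((n • θ) i).valMinAbs : ℝ) / M)))
      (fun j _ => by
        have := Real.cos_le_one (2 * Real.pi * (((n • θ) j).valMinAbs : ℝ) / M)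
        linarith) (Finset.mem_univ i)
  have h3 : |(n : ℝ) * vt l θ i / l| ≤ Real.pi := by
    rw [abs_div, Nat.abs_cast, div_le_iff₀ hl0]
    exact hx
  have h4 := Real.cos_le_one_sub_mul_cos_sq h3
  have h5 : 4 / Real.pi ^ 2 * (n * vt l θ i / l) ^ 2 ≤ om (n • θ) := by
    have : 4 / Real.pi ^ 2 * (n * vt l θ i / l) ^ 2 =
      2 * (2 / Real.pi ^ 2 * (n * vt l θ i / l) ^ 2) := by ring
    linarith
  calc 4 / Real.pi ^ 2 * (n * vt l θ i) ^ 2 =
        (l : ℝ) ^ 2 * (4 / Real.pi ^ 2 * (n * vt l θ i / l) ^ 2) := by field_simp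
    _ ≤ (l : ℝ) ^ 2 * om (n • θ) := mul_le_mul_of_nonneg_left h5 (by positivity)

/-- the constant `4 d / (5 π²)` -/
def aa (d : ℕ) : ℝ := 4 * d / (5 * Real.pi ^ 2)

theorem aa_pos {d : ℕ} (hd : 1 ≤ d) : 0 < aa d := by
  unfold aa
  positivity

theorem coer_ge {l : ℕ} (hl : 1 ≤ l) (hM : 3 ≤ M) {b : Tor d M → ℝ} {γ : ℝ} (hγ : 0 ≤ γ)
    (hc : ∀ θ, bh b θ ≤ (1 + γ) * (2 / (2 + 2 / 5 * d * (l : ℝ) ^ 2 * om θ)))
    (n : ℕ) (θ : Tor d M) (i : Fin d) (hx : |(n : ℝ) * vt l θ i| ≤ Real.pi * l) :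
    bh b (n • θ) ≤ (1 + γ) / (1 + aa d * (n * vt l θ i) ^ 2) := by
  have h1 := om_ge hl hM n θ i hx
  have h2 := hc (n • θ)
  have hd0 : (0 : ℝ) ≤ d := by positivity
  have hpi : (0 : ℝ) < Real.pi ^ 2 := by positivity
  have ha : 0 ≤ aa d := by unfold aa; positivity
  have h3 : 2 * (1 + aa d * (n * vt l θ i) ^ 2) ≤ 2 + 2 / 5 * d * (l : ℝ) ^ 2 * om (n • θ) := by
    have e : 2 * (aa d * (n * vt l θ i) ^ 2) =
        2 / 5 * d * (4 / Real.pi ^ 2 * (n * vt l θ i) ^ 2) := by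
      unfold aa
      field_simp
    have h4 : 2 / 5 * (d : ℝ) * (4 / Real.pi ^ 2 * (n * vt l θ i) ^ 2) ≤
        2 / 5 * d * ((l : ℝ) ^ 2 * om (n • θ)) := mul_le_mul_of_nonneg_left h1 (by positivity)
    have e2 : 2 / 5 * (d : ℝ) * (l : ℝ) ^ 2 * om (n • θ) =
        2 / 5 * d * ((l : ℝ) ^ 2 * om (n • θ)) := by ring
    rw [mul_add, mul_one, e, e2]
    linarith
  have hp : 0 < 1 + aa d * (n * vt l θ i) ^ 2 := by positivity
  refine h2.trans ?_
  rw [div_eq_mul_inv (1 + γ)]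
  refine mul_le_mul_of_nonneg_left ?_ (by linarith)
  rw [div_le_iff₀ (lt_of_lt_of_le (by positivity) h3)]
  have h5 : (1 + aa d * (n * vt l θ i) ^ 2)⁻¹ * (2 * (1 + aa d * (n * vt l θ i) ^ 2)) = 2 := by
    field_simp
  exact h5.symm.le.trans (mul_le_mul_of_nonneg_left h3 (by positivity))

/-- elementary: lower bound for `1 - (1 + γ)/(1 + a x)` -/
theorem frac_ge {a γ x c : ℝ} (ha : 0 < a) (hγ : 0 ≤ γ) (hx : 0 ≤ x) (hx1 : x ≤ 1)
    (hc : c = a / (1 + a)) : c * x - γ ≤ 1 - (1 + γ) / (1 + a * x) := by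
  have hp : 0 < 1 + a * x := by positivity
  have e : 1 - (1 + γ) / (1 + a * x) = a * x / (1 + a * x) - γ / (1 + a * x) := by
    field_simp
    ring
  rw [e, hc]
  have h1 : a / (1 + a) * x ≤ a * x / (1 + a * x) := by
    rw [div_mul_eq_mul_div]
    exact div_le_div_of_nonneg_left (by positivity) hp (by nlinarith)
  have h2 : γ / (1 + a * x) ≤ γ := div_le_self hγ (by nlinarith [mul_nonneg ha.le hx])
  linarith

/-- the constants and hypotheses used below -/
structure Hyp (l : ℕ) (b : Tor d M → ℝ) (γ τ m c4 r1 : ℝ) : Prop where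
  hl : 1 ≤ l
  hM : 3 ≤ M
  hγ : 0 ≤ γ
  hγ2 : γ ≤ c4 * r1 ^ 2 / 16
  hc : ∀ θ, bh b θ ≤ (1 + γ) * (2 / (2 + 2 / 5 * d * (l : ℝ) ^ 2 * om θ))
  hz : 1 + τ ≤ bh b 0
  hτ : 0 < τ
  hm0 : 0 < m
  hm2 : ∑ y, |b y| * ((nd y : ℝ) / l) ^ 2 ≤ m
  hm4 : ∑ y, |b y| * ((nd y : ℝ) / l) ^ 4 ≤ m
  hc4 : c4 = aa d / (1 + aa d)
  ha : 0 < aa d
  hr1 : 0 < r1
  hr1' : r1 ≤ 1
  hmr : m * r1 ^ 2 ≤ c4

theorem Hyp.c4pos {l : ℕ} {b : Tor d M → ℝ} {γ τ m c4 r1 : ℝ} (H : Hyp l b γ τ m c4 r1) :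
    0 < c4 := by
  rw [H.hc4]
  have := H.ha
  positivity

theorem S_ge {l : ℕ} {b : Tor d M → ℝ} {γ τ m c4 r1 : ℝ} (H : Hyp l b γ τ m c4 r1)
    (θ : Tor d M) {t : ℝ} (h : ∀ j, |vt l θ j| ≤ t) (i : Fin d) (hi : |vt l θ i| = t)
    (ht : 0 < t) (htr : t ≤ r1) : c4 * t ^ 2 ≤ SS b θ := by
  obtain ⟨hl, hM, hγ, hγ2, hc, hz, hτ, hm0, hm2, hm4, hc4, ha, hr1, hr1', hmr⟩ := id H
  have hc4p := H.c4pos
  set n := ⌊r1 / t⌋₊ with hn
  have hn1 : 1 ≤ n := by
    rw [hn, Nat.one_le_floor_iff, le_div_iff₀ ht]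
    linarith
  have hn1' : (1 : ℝ) ≤ n := by exact_mod_cast hn1
  have hn2 : (n : ℝ) * t ≤ r1 := by
    have := Nat.floor_le (a := r1 / t) (by positivity)
    rwa [← hn, le_div_iff₀ ht] at this
  have hn3 : r1 / 2 ≤ n * t := by
    have h1 := Nat.lt_floor_add_one (r1 / t)
    rw [← hn, div_lt_iff₀ ht] at h1
    nlinarith
  have hn0 : (0 : ℝ) < n * t := by positivity
  set x := (n : ℝ) * vt l θ i with hxdef
  have hxa : |x| = n * t := by rw [hxdef, abs_mul, Nat.abs_cast, hi]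
  have hx2 : x ^ 2 = (n * t) ^ 2 := by rw [← hxa, sq_abs]
  have hl1 : (1 : ℝ) ≤ l := by exact_mod_cast hl
  have hpi : (1 : ℝ) ≤ Real.pi * l := by
    have := Real.pi_gt_three
    nlinarith
  have h1 := coer_ge hl hM hγ hc n θ i (by rw [← hxdef, hxa]; linarith)
  rw [← hxdef, hx2] at h1
  have h2 := frac_ge (x := (n * t) ^ 2) ha hγ (by positivity) (by nlinarith) hc4
  have h3 := (abs_le.1 (taylor b hl hm4 n θ ht.le h)).2
  have h4 : c4 * (n * t) ^ 2 - γ ≤ (n : ℝ) ^ 2 * SS b θ / 2 + (n * t) ^ 4 / 24 * m := by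
    linarith
  have hsq1 : (r1 / 2) ^ 2 ≤ (n * t) ^ 2 := pow_le_pow_left₀ (by positivity) hn3 2
  have hsq2 : (n * t) ^ 2 ≤ r1 ^ 2 := pow_le_pow_left₀ hn0.le hn2 2
  have h5 : γ ≤ c4 / 4 * (n * t) ^ 2 := by nlinarith
  have h6 : (n * t) ^ 4 / 24 * m ≤ c4 / 24 * (n * t) ^ 2 := by
    have : m * (n * t) ^ 2 ≤ c4 := (mul_le_mul_of_nonneg_left hsq2 hm0.le).trans hmr
    have h7 : (m * (n * t) ^ 2) * ((n * t) ^ 2 / 24) ≤ c4 * ((n * t) ^ 2 / 24) :=
      mul_le_mul_of_nonneg_right this (by positivity)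
    calc (n * t) ^ 4 / 24 * m = (m * (n * t) ^ 2) * ((n * t) ^ 2 / 24) := by ring
      _ ≤ c4 * ((n * t) ^ 2 / 24) := h7
      _ = c4 / 24 * (n * t) ^ 2 := by ring
  have h7 : (n : ℝ) ^ 2 * (c4 * t ^ 2) ≤ (n : ℝ) ^ 2 * SS b θ := by
    have e : (n : ℝ) ^ 2 * (c4 * t ^ 2) = c4 * (n * t) ^ 2 := by ring
    rw [e]
    nlinarith [mul_pos hc4p (pow_pos hn0 2)]
  exact le_of_mul_le_mul_left h7 (by positivity)

/-- minus the derivative of the symbol -/
def DF (l : ℕ) (b : Tor d M → ℝ) (i : Fin d) (θ : Tor d M) : ℝ :=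
  ∑ y, b y * (hy l y i * Real.sin (ph θ y))

theorem euler {l : ℕ} (hl : 1 ≤ l) (b : Tor d M → ℝ) (θ : Tor d M) :
    ∑ i, vt l θ i * DF l b i θ = ∑ y, b y * (ph θ y * Real.sin (ph θ y)) := by
  unfold DF
  simp only [Finset.mul_sum]
  rw [Finset.sum_comm]
  refine Finset.sum_congr rfl fun y _ => ?_
  nth_rewrite 2 [ph_eq hl]
  rw [Finset.sum_mul, Finset.mul_sum]
  exact Finset.sum_congr rfl fun i _ => by ring

theorem small_t {l : ℕ} {b : Tor d M → ℝ} {γ τ m c4 r1 : ℝ} (H : Hyp l b γ τ m c4 r1)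
    (θ : Tor d M) {t : ℝ} (h : ∀ j, |vt l θ j| ≤ t) (i : Fin d) (hi : |vt l θ i| = t)
    (ht : 0 < t) (htr : t ≤ r1) {c1 : ℝ} (hD : ∀ i, |DF l b i θ| ≤ c1) :
    c4 * t ≤ 2 * d * c1 := by
  obtain ⟨hl, hM, hγ, hγ2, hc, hz, hτ, hm0, hm2, hm4, hc4, ha, hr1, hr1', hmr⟩ := id H
  have hc4p := H.c4pos
  have h1 := S_ge H θ h i hi ht htr
  have h2 : |∑ y, b y * (ph θ y * Real.sin (ph θ y)) - SS b θ| ≤ t ^ 4 / 6 * m := by
    unfold SS
    rw [← Finset.sum_sub_distrib]
    simp only [← mul_sub]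
    refine wsum_le b l 4 _ (by positivity) hm4 fun y => ?_
    refine (abs_mul_sin _).trans ?_
    have h2 := pow_le_of_abs (abs_ph_le hl θ y h) 4 (by decide)
    linarith
  have h3 := (abs_le.1 h2).1
  have h4 : ∑ i, vt l θ i * DF l b i θ ≤ d * (t * c1) := by
    calc ∑ i, vt l θ i * DF l b i θ ≤ ∑ _i : Fin d, t * c1 := by
          refine Finset.sum_le_sum fun i _ => ?_
          refine (le_abs_self _).trans ?_
          rw [abs_mul]
          exact mul_le_mul (h i) (hD i) (abs_nonneg _) ht.le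
      _ = d * (t * c1) := by simp
  rw [euler hl] at h4
  have hsq : t ^ 2 ≤ r1 ^ 2 := pow_le_pow_left₀ ht.le htr 2
  have h6 : t ^ 4 / 6 * m ≤ c4 / 6 * t ^ 2 := by
    have : m * t ^ 2 ≤ c4 := (mul_le_mul_of_nonneg_left hsq hm0.le).trans hmr
    have h7 : (m * t ^ 2) * (t ^ 2 / 6) ≤ c4 * (t ^ 2 / 6) :=
      mul_le_mul_of_nonneg_right this (by positivity)
    calc t ^ 4 / 6 * m = (m * t ^ 2) * (t ^ 2 / 6) := by ring
      _ ≤ c4 * (t ^ 2 / 6) := h7
      _ = c4 / 6 * t ^ 2 := by ring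
  have h7 : c4 * t ^ 2 / 2 ≤ d * (t * c1) := by
    nlinarith [mul_pos hc4p (pow_pos ht 2)]
  have h8 : t * (c4 * t) ≤ t * (2 * d * c1) := by
    calc t * (c4 * t) = 2 * (c4 * t ^ 2 / 2) := by ring
      _ ≤ 2 * (d * (t * c1)) := by linarith
      _ = t * (2 * d * c1) := by ring
  exact le_of_mul_le_mul_left h8 ht

theorem exists_max (hd : 1 ≤ d) (l : ℕ) (θ : Tor d M) :
    ∃ i, ∀ j, |vt l θ j| ≤ |vt l θ i| := by
  have : Nonempty (Fin d) := ⟨⟨0, hd⟩⟩
  exact Finite.exists_max fun i => |vt l θ i|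

theorem one_sub_neg {l : ℕ} {b : Tor d M → ℝ} {γ τ m c4 r1 : ℝ} (H : Hyp l b γ τ m c4 r1)
    (hd : 1 ≤ d) (θ : Tor d M) (htr : ∀ j, |vt l θ j| ≤ r1) {c1 : ℝ} (hc1 : 0 ≤ c1)
    (hD : ∀ i, |DF l b i θ| ≤ c1) (h1 : 2 * d * c1 ≤ c4) (h2 : m * (2 * d * c1) ≤ τ * c4) :
    1 - bh b θ ≤ -(τ / 2) := by
  obtain ⟨i, hi⟩ := exists_max hd l θ
  have hc4p := H.c4pos
  have hq := quad b H.hl H.hm2 θ (abs_nonneg (vt l θ i)) hi
  have hz := H.hz
  have hm0 := H.hm0
  set t := |vt l θ i| with ht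
  have hkey : t ^ 2 / 2 * m ≤ τ / 2 := by
    rcases (abs_nonneg (vt l θ i)).eq_or_lt with h0 | h0
    · rw [← ht] at h0
      rw [← h0]
      have := H.hτ
      norm_num
      linarith
    · rw [← ht] at h0
      have h3 := small_t H θ hi i rfl h0 (htr i) hD
      have h4 : t ≤ 1 := by
        have : c4 * t ≤ c4 * 1 := by linarith
        exact le_of_mul_le_mul_left this hc4p
      have h5 : m * t ≤ τ := by
        have : c4 * (m * t) ≤ c4 * τ := by
          calc c4 * (m * t) = m * (c4 * t) := by ring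
            _ ≤ m * (2 * d * c1) := mul_le_mul_of_nonneg_left h3 hm0.le
            _ ≤ τ * c4 := h2
            _ = c4 * τ := by ring
        exact le_of_mul_le_mul_left this hc4p
      have h6 : t * (m * t) ≤ t * τ := mul_le_mul_of_nonneg_left h5 h0.le
      have h7 : t * τ ≤ 1 * τ := mul_le_mul_of_nonneg_right h4 H.hτ.le
      have h8 : t ^ 2 / 2 * m = t * (m * t) / 2 := by ring
      rw [h8]
      linarith
  have := (abs_le.1 hq).2
  linarith

/-! ### convexity on lines -/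

/-- the symbol on a line (with the opposite sign) -/
def fl (l : ℕ) (b : Tor d M → ℝ) (i : Fin d) (θ : Tor d M) (u : ℝ) : ℝ :=
  ∑ y, b y * (-Real.cos (∑ j, Function.update (vt l θ) i u j * hy l y j))

theorem upd_sum (l : ℕ) (i : Fin d) (θ y : Tor d M) (u : ℝ) :
    ∑ j, Function.update (vt l θ) i u j * hy l y j =
      ∑ j ∈ Finset.univ.erase i, vt l θ j * hy l y j + u * hy l y i := by
  rw [← Finset.sum_erase_add _ _ (Finset.mem_univ i), Function.update_self]
  congr 1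
  refine Finset.sum_congr rfl fun j hj => ?_
  rw [Function.update_of_ne (Finset.ne_of_mem_erase hj)]

/-- the derivative of `fl` -/
def fl' (l : ℕ) (b : Tor d M → ℝ) (i : Fin d) (θ : Tor d M) (u : ℝ) : ℝ :=
  ∑ y, b y * (hy l y i * Real.sin (∑ j, Function.update (vt l θ) i u j * hy l y j))

theorem fl_deriv (l : ℕ) (b : Tor d M → ℝ) (i : Fin d) (θ : Tor d M) (u : ℝ) :
    HasDerivAt (fl l b i θ) (fl' l b i θ u) u := by
  unfold fl fl'
  simp only [upd_sum]
  refine HasDerivAt.fun_sum fun y _ => ?_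
  refine HasDerivAt.const_mul _ ?_
  have h1 : HasDerivAt (fun u : ℝ => ∑ j ∈ Finset.univ.erase i, vt l θ j * hy l y j +
      u * hy l y i) (hy l y i) u := by
    have := ((hasDerivAt_id u).mul_const (hy l y i)).const_add
      (∑ j ∈ Finset.univ.erase i, vt l θ j * hy l y j)
    simpa using this
  have h2 := h1.cos.neg
  refine h2.congr_deriv ?_
  ring

theorem fl'_deriv (l : ℕ) (b : Tor d M → ℝ) (i : Fin d) (θ : Tor d M) (u : ℝ) :
    HasDerivAt (fl' l b i θ) (∑ y, b y * (hy l y i ^ 2 *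
      Real.cos (∑ j, Function.update (vt l θ) i u j * hy l y j))) u := by
  unfold fl'
  simp only [upd_sum]
  refine HasDerivAt.fun_sum fun y _ => ?_
  refine HasDerivAt.const_mul _ ?_
  have h1 : HasDerivAt (fun u : ℝ => ∑ j ∈ Finset.univ.erase i, vt l θ j * hy l y j +
      u * hy l y i) (hy l y i) u := by
    have := ((hasDerivAt_id u).mul_const (hy l y i)).const_add
      (∑ j ∈ Finset.univ.erase i, vt l θ j * hy l y j)
    simpa using this
  have h2 := h1.sin.const_mul (hy l y i)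
  refine h2.congr_deriv ?_
  ring

theorem vt_ev (l : ℕ) (hM : 3 ≤ M) (i j : Fin d) :
    vt l (ev i : Tor d M) j = if j = i then 2 * Real.pi * l / M else 0 := by
  have h1 : ((1 : ZMod M).valMinAbs) = 1 := by
    have := ZMod.valMinAbs_natCast_of_le_half (n := M) (a := 1) (by omega)
    simpa using this
  unfold vt ev
  by_cases h : j = i
  · subst h
    rw [Pi.single_eq_same, h1, if_pos rfl]
    push_cast
    ring
  · rw [Pi.single_eq_of_ne h, if_neg h]
    simp

theorem Sii_ge {l : ℕ} {b : Tor d M → ℝ} {γ τ m c4 r1 : ℝ} (H : Hyp l b γ τ m c4 r1)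
    (i : Fin d) (hh : 2 * Real.pi * l / M ≤ r1) : c4 ≤ ∑ y, b y * hy l y i ^ 2 := by
  have hl := H.hl
  have hM := H.hM
  have hM0 : (0 : ℝ) < M := by
    have : 0 < M := by omega
    exact_mod_cast this
  have hl0 : (0 : ℝ) < l := by
    have : 0 < l := by omega
    exact_mod_cast this
  set h := 2 * Real.pi * l / M with hdef
  have hpos : 0 < h := by positivity
  have h1 := S_ge H (ev i) (t := h) (fun j => by
    rw [vt_ev l hM]
    split_ifs
    · rw [abs_of_pos hpos]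
    · rw [abs_zero]; exact hpos.le) i (by rw [vt_ev l hM, if_pos rfl, abs_of_pos hpos]) hpos hh
  have h2 : SS b (ev i : Tor d M) = h ^ 2 * ∑ y, b y * hy l y i ^ 2 := by
    unfold SS
    rw [Finset.mul_sum]
    refine Finset.sum_congr rfl fun y _ => ?_
    rw [ph_eq hl, Finset.sum_eq_single i]
    · rw [vt_ev l hM, if_pos rfl]
      ring
    · intro j _ hj
      rw [vt_ev l hM, if_neg hj, zero_mul]
    · simp
  rw [h2] at h1
  have h3 : h ^ 2 * c4 ≤ h ^ 2 * ∑ y, b y * hy l y i ^ 2 := by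
    rw [mul_comm (h ^ 2) c4]
    exact h1
  exact le_of_mul_le_mul_left h3 (by positivity)

theorem fl'_mono {l : ℕ} {b : Tor d M → ℝ} {γ τ m c4 r1 : ℝ} (H : Hyp l b γ τ m c4 r1)
    (i : Fin d) (hh : 2 * Real.pi * l / M ≤ r1) (θ : Tor d M) (hθ : ∀ j, |vt l θ j| ≤ r1) :
    MonotoneOn (fl' l b i θ) (Set.Icc (-r1) r1) := by
  refine monotoneOn_of_deriv_nonneg (convex_Icc _ _)
    (fun t _ => (fl'_deriv l b i θ t).continuousAt.continuousWithinAt)
    (fun t _ => (fl'_deriv l b i θ t).differentiableAt.differentiableWithinAt) ?_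
  intro u hu
  rw [interior_Icc] at hu
  rw [(fl'_deriv l b i θ u).deriv]
  have h1 := Sii_ge H i hh
  have h2 : |∑ y, b y * (hy l y i ^ 2 * Real.cos (∑ j, Function.update (vt l θ) i u j * hy l y j)) -
      ∑ y, b y * hy l y i ^ 2| ≤ r1 ^ 2 / 2 * m := by
    rw [← Finset.sum_sub_distrib]
    simp only [← mul_sub]
    refine wsum_le b l 4 _ (by positivity) H.hm4 fun y => ?_
    have h3 : |∑ j, Function.update (vt l θ) i u j * hy l y j| ≤ r1 * ((nd y : ℝ) / l) := by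
      refine abs_lin_le l y _ fun j => ?_
      by_cases hj : j = i
      · subst hj
        rw [Function.update_self, abs_le]
        exact ⟨hu.1.le, hu.2.le⟩
      · rw [Function.update_of_ne hj]
        exact hθ j
    have h4 := pow_le_of_abs h3 2 (by decide)
    have h5 := abs_one_sub_cos (∑ j, Function.update (vt l θ) i u j * hy l y j)
    have h6 : hy l y i ^ 2 ≤ ((nd y : ℝ) / l) ^ 2 := by
      rw [← sq_abs]
      exact pow_le_pow_left₀ (abs_nonneg _) (abs_hy_le l y i) 2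
    have e : hy l y i ^ 2 * Real.cos (∑ j, Function.update (vt l θ) i u j * hy l y j) -
        hy l y i ^ 2 = -(hy l y i ^ 2 *
          (1 - Real.cos (∑ j, Function.update (vt l θ) i u j * hy l y j))) := by ring
    rw [e, abs_neg, abs_mul, abs_of_nonneg (sq_nonneg (hy l y i))]
    calc hy l y i ^ 2 * |1 - Real.cos (∑ j, Function.update (vt l θ) i u j * hy l y j)| ≤
          ((nd y : ℝ) / l) ^ 2 * (r1 ^ 2 * ((nd y : ℝ) / l) ^ 2 / 2) := by
          refine mul_le_mul h6 ?_ (abs_nonneg _) (by positivity)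
          linarith
      _ = r1 ^ 2 / 2 * ((nd y : ℝ) / l) ^ 4 := by ring
  have h3 := (abs_le.1 h2).1
  have h4 := H.hmr
  have h5 := H.c4pos
  nlinarith

theorem fl_bh {l : ℕ} (hl : 1 ≤ l) (b : Tor d M → ℝ) (i : Fin d) (θ : Tor d M) (t : ZMod M) :
    fl l b i θ (2 * Real.pi * l * (t.valMinAbs : ℝ) / M) = -bh b (Function.update θ i t) := by
  unfold fl bh
  rw [← Finset.sum_neg_distrib]
  refine Finset.sum_congr rfl fun y _ => ?_
  rw [ph_eq hl, mul_neg]
  congr 3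
  refine Finset.sum_congr rfl fun j _ => ?_
  congr 1
  by_cases hj : j = i
  · subst hj
    rw [Function.update_self]
    unfold vt
    rw [Function.update_self]
  · rw [Function.update_of_ne hj]
    unfold vt
    rw [Function.update_of_ne hj]

theorem fl'_DF {l : ℕ} (hl : 1 ≤ l) (b : Tor d M → ℝ) (i : Fin d) (θ : Tor d M) (t : ZMod M) :
    fl' l b i θ (2 * Real.pi * l * (t.valMinAbs : ℝ) / M) =
      DF l b i (Function.update θ i t) := by
  unfold fl' DF
  refine Finset.sum_congr rfl fun y _ => ?_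
  rw [ph_eq hl]
  congr 3
  refine Finset.sum_congr rfl fun j _ => ?_
  congr 1
  by_cases hj : j = i
  · subst hj
    rw [Function.update_self]
    unfold vt
    rw [Function.update_self]
  · rw [Function.update_of_ne hj]
    unfold vt
    rw [Function.update_of_ne hj]

/-- the mean value inequality on a line, both orientations -/
theorem line_ge {l : ℕ} {b : Tor d M → ℝ} {γ τ m c4 r1 : ℝ} (H : Hyp l b γ τ m c4 r1)
    (i : Fin d) (hh : 2 * Real.pi * l / M ≤ r1) (θ : Tor d M) (hθ : ∀ j, |vt l θ j| ≤ r1)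
    {u v c1 : ℝ} (hu : -r1 ≤ u) (huv : u ≤ v) (hv : v ≤ r1)
    (hD : c1 ≤ fl' l b i θ u ∨ fl' l b i θ v ≤ -c1) :
    c1 * (v - u) ≤ |fl l b i θ v - fl l b i θ u| := by
  have hmono := fl'_mono H i hh θ hθ
  rcases hD with hD | hD
  · have h := (convex_Icc u v).mul_sub_le_image_sub_of_le_deriv (f := fl l b i θ) (C := c1)
      (fun t _ => (fl_deriv l b i θ t).continuousAt.continuousWithinAt)
      (fun t _ => (fl_deriv l b i θ t).differentiableAt.differentiableWithinAt)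
      (fun t ht => by
        rw [interior_Icc] at ht
        rw [(fl_deriv l b i θ t).deriv]
        refine hD.trans (hmono ⟨hu, huv.trans hv⟩ ⟨hu.trans ht.1.le, ht.2.le.trans hv⟩ ht.1.le))
      u (Set.left_mem_Icc.2 huv) v (Set.right_mem_Icc.2 huv) huv
    exact h.trans (le_abs_self _)
  · have h := (convex_Icc u v).mul_sub_le_image_sub_of_le_deriv
      (f := fun t => -fl l b i θ t) (C := c1)
      (fun t _ => (fl_deriv l b i θ t).fun_neg.continuousAt.continuousWithinAt)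
      (fun t _ => (fl_deriv l b i θ t).fun_neg.differentiableAt.differentiableWithinAt)
      (fun t ht => by
        rw [interior_Icc] at ht
        rw [((fl_deriv l b i θ t).fun_neg).deriv]
        have := hmono ⟨hu.trans ht.1.le, ht.2.le.trans hv⟩ ⟨hu.trans huv, hv⟩ ht.2.le
        linarith)
      u (Set.left_mem_Icc.2 huv) v (Set.right_mem_Icc.2 huv) huv
    refine h.trans ?_
    rw [abs_sub_comm]
    refine le_trans (le_of_eq ?_) (le_abs_self _)
    ring

theorem line_pair {l : ℕ} {b : Tor d M → ℝ} {γ τ m c4 r1 : ℝ} (H : Hyp l b γ τ m c4 r1)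
    (i : Fin d) (hh : 2 * Real.pi * l / M ≤ r1) (θ : Tor d M) (t : ZMod M)
    (hθ : ∀ j, |vt l θ j| ≤ r1) (hθ' : ∀ j, |vt l (Function.update θ i t) j| ≤ r1)
    {c1 : ℝ} (hD : (c1 ≤ DF l b i θ ∧ c1 ≤ DF l b i (Function.update θ i t)) ∨
      (DF l b i θ ≤ -c1 ∧ DF l b i (Function.update θ i t) ≤ -c1)) :
    c1 * |2 * Real.pi * l * ((θ i).valMinAbs : ℝ) / M - 2 * Real.pi * l * (t.valMinAbs : ℝ) / M| ≤
      |bh b θ - bh b (Function.update θ i t)| := by
  have hl := H.hl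
  set u := 2 * Real.pi * l * ((θ i).valMinAbs : ℝ) / M with hu
  set v := 2 * Real.pi * l * (t.valMinAbs : ℝ) / M with hv
  have hself : Function.update θ i (θ i) = θ := Function.update_eq_self i θ
  have e1 : fl l b i θ u = -bh b θ := by
    have := fl_bh hl b i θ (θ i)
    rw [hself] at this
    exact this
  have e2 : fl l b i θ v = -bh b (Function.update θ i t) := fl_bh hl b i θ t
  have e3 : fl' l b i θ u = DF l b i θ := by
    have := fl'_DF hl b i θ (θ i)
    rw [hself] at this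
    exact this
  have e4 : fl' l b i θ v = DF l b i (Function.update θ i t) := fl'_DF hl b i θ t
  have hur := abs_le.1 (hθ i)
  have hvr := abs_le.1 (hθ' i)
  have e5 : vt l θ i = u := rfl
  have e6 : vt l (Function.update θ i t) i = v := by
    unfold vt
    rw [Function.update_self]
  rw [e5] at hur
  rw [e6] at hvr
  rcases le_total u v with h | h
  · have h1 := line_ge H i hh θ hθ (c1 := c1) hur.1 h hvr.2 (by
      rw [e3, e4]
      rcases hD with hD | hD
      · exact Or.inl hD.1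
      · exact Or.inr hD.2)
    rw [abs_sub_comm u v, abs_of_nonneg (by linarith : (0 : ℝ) ≤ v - u)]
    refine h1.trans (le_of_eq ?_)
    rw [e1, e2]
    congr 1
    ring
  · have h1 := line_ge H i hh θ hθ (c1 := c1) hvr.1 h hur.2 (by
      rw [e3, e4]
      rcases hD with hD | hD
      · exact Or.inl hD.2
      · exact Or.inr hD.1)
    rw [abs_of_nonneg (by linarith : (0 : ℝ) ≤ u - v)]
    refine h1.trans (le_of_eq ?_)
    rw [e1, e2, abs_sub_comm]
    congr 1
    ring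

/-- Module SYM. -/
theorem sym (hMom : MomStmt) : SymStmt := by
  intro d hd C hC
  obtain ⟨m, hm0, hm⟩ := hMom d hd C hC
  have ha : 0 < aa d := aa_pos hd
  set c4 := aa d / (1 + aa d) with hc4
  have hc4p : 0 < c4 := by positivity
  set r1 := min 1 (c4 / m) with hr1def
  have hr1 : 0 < r1 := lt_min one_pos (by positivity)
  have hr1' : r1 ≤ 1 := min_le_left _ _
  have hmr : m * r1 ^ 2 ≤ c4 := by
    have h1 : r1 ≤ c4 / m := min_le_right _ _
    have h2 : m * r1 ≤ c4 := by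
      rw [le_div_iff₀ hm0] at h1
      linarith
    have h3 : r1 ^ 2 ≤ r1 := by nlinarith
    exact (mul_le_mul_of_nonneg_left h3 hm0.le).trans h2
  refine ⟨c4 * r1 ^ 2 / 16, by positivity, ?_⟩
  intro τ hτ
  have hd0 : (0 : ℝ) < d := by
    have : 0 < d := by omega
    exact_mod_cast this
  set c1 := c4 / (2 * d) * min 1 (τ / m) with hc1def
  have hmin : 0 < min 1 (τ / m) := lt_min one_pos (by positivity)
  have hc1 : 0 < c1 := by positivity
  have hc1a : 2 * d * c1 = c4 * min 1 (τ / m) := by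
    rw [hc1def]
    field_simp
  have hc1b : 2 * d * c1 ≤ c4 := by
    rw [hc1a]
    have : min 1 (τ / m) ≤ 1 := min_le_left _ _
    nlinarith
  have hc1c : m * (2 * d * c1) ≤ τ * c4 := by
    rw [hc1a]
    have h1 : min 1 (τ / m) ≤ τ / m := min_le_right _ _
    have h2 : m * min 1 (τ / m) ≤ τ := by
      rw [le_div_iff₀ hm0] at h1
      linarith
    calc m * (c4 * min 1 (τ / m)) = c4 * (m * min 1 (τ / m)) := by ring
      _ ≤ c4 * τ := mul_le_mul_of_nonneg_left h2 hc4p.le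
      _ = τ * c4 := by ring
  set C' := 2 * (1 + aa d * r1 ^ 2) / (aa d * r1 ^ 2) + 2 / τ + 1 / c1 with hC'
  have hp1 : 0 < 2 * (1 + aa d * r1 ^ 2) / (aa d * r1 ^ 2) := by positivity
  have hp2 : 0 < 2 / τ := by positivity
  have hp3 : 0 < 1 / c1 := by positivity
  refine ⟨r1 / 10, C', by positivity, by positivity, ?_⟩
  intro M l _ b γ hl hlM hγ hγ0 hS
  have hl1 : (1 : ℝ) ≤ l := by exact_mod_cast hl
  have hMr : (10 : ℝ) ≤ M := by
    by_contra hc
    push Not at hc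
    have hM0 : (0 : ℝ) ≤ M := Nat.cast_nonneg M
    have : r1 / 10 * (M : ℝ) < 1 := by nlinarith
    linarith
  have hM3 : 3 ≤ M := by
    have : (3 : ℝ) ≤ M := by linarith
    exact_mod_cast this
  have hM0 : (0 : ℝ) < M := by linarith
  have hh : 2 * Real.pi * l / M ≤ r1 := by
    rw [div_le_iff₀ hM0]
    have hpi := Real.pi_lt_four
    have hpi0 := Real.pi_pos
    nlinarith
  have H : Hyp l b γ τ m c4 r1 :=
    { hl := hl
      hM := hM3
      hγ := hγ
      hγ2 := hγ0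
      hc := hS.coer
      hz := hS.zero
      hτ := hτ
      hm0 := hm0
      hm2 := hm M l b hl hS.decay 2 (by norm_num)
      hm4 := hm M l b hl hS.decay 4 (by norm_num)
      hc4 := hc4
      ha := ha
      hr1 := hr1
      hr1' := hr1'
      hmr := hmr }
  refine ⟨fun i s => {θ | (∀ j, |vt l θ j| ≤ r1) ∧
    ((s = true ∧ c1 ≤ DF l b i θ) ∨ (s = false ∧ DF l b i θ ≤ -c1))}, ?_, ?_, ?_⟩
  · intro θ hθ
    by_cases hbox : ∀ j, |vt l θ j| ≤ r1
    · have hD : ∀ i, |DF l b i θ| ≤ c1 := by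
        intro i
        rw [abs_le]
        constructor
        · by_contra hc
          push Not at hc
          exact hθ i false ⟨hbox, Or.inr ⟨rfl, hc.le⟩⟩
        · by_contra hc
          push Not at hc
          exact hθ i true ⟨hbox, Or.inl ⟨rfl, hc.le⟩⟩
      have h1 := one_sub_neg H hd θ hbox hc1.le hD hc1b hc1c
      have h2 : τ / 2 ≤ |1 - bh b θ| := by
        rw [abs_of_nonpos (by linarith)]
        linarith
      calc (1 : ℝ) = 2 / τ * (τ / 2) := by field_simp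
        _ ≤ C' * |1 - bh b θ| := by
            refine mul_le_mul ?_ h2 (by positivity) (by positivity)
            rw [hC']
            linarith
    · push Not at hbox
      obtain ⟨j, hj⟩ := hbox
      have hx : |((1 : ℕ) : ℝ) * vt l θ j| ≤ Real.pi * l := by
        rw [Nat.cast_one, one_mul]
        unfold vt
        rw [abs_div, abs_mul, Nat.abs_cast, abs_of_pos (by positivity : 0 < 2 * Real.pi * (l : ℝ)),
          div_le_iff₀ hM0]
        have h1 : (((θ j).valMinAbs.natAbs : ℕ) : ℝ) ≤ M / 2 := by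
          have h2 := ZMod.natAbs_valMinAbs_le (θ j)
          have h3 : (((θ j).valMinAbs.natAbs : ℕ) : ℝ) ≤ ((M / 2 : ℕ) : ℝ) := by exact_mod_cast h2
          exact h3.trans Nat.cast_div_le
        rw [Nat.cast_natAbs, Int.cast_abs] at h1
        calc 2 * Real.pi * l * |((θ j).valMinAbs : ℝ)| ≤ 2 * Real.pi * l * (M / 2) :=
              mul_le_mul_of_nonneg_left h1 (by positivity)
          _ = Real.pi * l * M := by ring
      have h1 := coer_ge hl hM3 hγ hS.coer 1 θ j hx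
      rw [one_smul, Nat.cast_one, one_mul] at h1
      have h2 : r1 ^ 2 ≤ vt l θ j ^ 2 := by
        rw [← sq_abs (vt l θ j)]
        exact pow_le_pow_left₀ hr1.le hj.le 2
      have h3 : (1 + γ) / (1 + aa d * vt l θ j ^ 2) ≤ (1 + γ) / (1 + aa d * r1 ^ 2) :=
        div_le_div_of_nonneg_left (by linarith) (by positivity) (by nlinarith)
      have h4 : γ ≤ aa d * r1 ^ 2 / 2 := by
        have h5 : c4 ≤ aa d := by
          rw [hc4]
          exact div_le_self ha.le (by linarith)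
        have h6 : c4 * r1 ^ 2 ≤ aa d * r1 ^ 2 := mul_le_mul_of_nonneg_right h5 (by positivity)
        have h7 : 0 < aa d * r1 ^ 2 := by positivity
        linarith
      have h5 : aa d * r1 ^ 2 / (2 * (1 + aa d * r1 ^ 2)) ≤ 1 - bh b θ := by
        have h6 : 1 - (1 + γ) / (1 + aa d * r1 ^ 2) =
            (aa d * r1 ^ 2 - γ) / (1 + aa d * r1 ^ 2) := by
          field_simp
          ring
        have h7 : aa d * r1 ^ 2 / (2 * (1 + aa d * r1 ^ 2)) ≤
            (aa d * r1 ^ 2 - γ) / (1 + aa d * r1 ^ 2) := by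
          rw [div_le_div_iff₀ (by positivity) (by positivity)]
          nlinarith [mul_nonneg (by linarith : 0 ≤ aa d * r1 ^ 2 / 2 - γ)
            (by positivity : 0 ≤ 1 + aa d * r1 ^ 2)]
        linarith
      have h6 : 0 < aa d * r1 ^ 2 / (2 * (1 + aa d * r1 ^ 2)) := by positivity
      have h7 : aa d * r1 ^ 2 / (2 * (1 + aa d * r1 ^ 2)) ≤ |1 - bh b θ| :=
        h5.trans (le_abs_self _)
      calc (1 : ℝ) = 2 * (1 + aa d * r1 ^ 2) / (aa d * r1 ^ 2) *
            (aa d * r1 ^ 2 / (2 * (1 + aa d * r1 ^ 2))) := by field_simp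
        _ ≤ C' * |1 - bh b θ| := by
            refine mul_le_mul ?_ h7 h6.le (by positivity)
            rw [hC']
            linarith
  · rintro i s θ ⟨hbox, -⟩ j
    have h1 := hbox j
    unfold vt at h1
    rw [abs_div, abs_mul, Nat.abs_cast, abs_of_pos (by positivity : 0 < 2 * Real.pi * (l : ℝ)),
      div_le_iff₀ hM0] at h1
    have hpi := Real.pi_gt_three
    have h2 : 0 ≤ |((θ j).valMinAbs : ℝ)| * l := by positivity
    nlinarith
  · rintro i s θ t ⟨hbox, hs⟩ ⟨hbox', hs'⟩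
    have h1 := line_pair H i hh θ t hbox hbox' (c1 := c1) (by
      rcases hs with ⟨hs1, hs2⟩ | ⟨hs1, hs2⟩ <;> rcases hs' with ⟨hs3, hs4⟩ | ⟨hs3, hs4⟩
      · exact Or.inl ⟨hs2, hs4⟩
      · rw [hs1] at hs3; exact absurd hs3 (by decide)
      · rw [hs1] at hs3; exact absurd hs3 (by decide)
      · exact Or.inr ⟨hs2, hs4⟩)
    have e : 2 * Real.pi * l * ((θ i).valMinAbs : ℝ) / M - 2 * Real.pi * l * (t.valMinAbs : ℝ) / M =
        2 * Real.pi / M * ((((θ i).valMinAbs : ℝ) - (t.valMinAbs : ℝ)) * l) := by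
      field_simp
    rw [e, abs_mul, abs_of_pos (by positivity : 0 < 2 * Real.pi / (M : ℝ)), abs_mul,
      Nat.abs_cast] at h1
    set Z := |((θ i).valMinAbs : ℝ) - (t.valMinAbs : ℝ)| * l with hZ
    have hZ0 : 0 ≤ Z := by positivity
    set W := |bh b θ - bh b (Function.update θ i t)| with hW
    have hW0 : 0 ≤ W := abs_nonneg _
    have h2 : c1 * Z ≤ M * W := by
      have h3 : c1 * (2 * Real.pi / M * Z) * M ≤ W * M := mul_le_mul_of_nonneg_right h1 hM0.le
      have h4 : c1 * (2 * Real.pi / M * Z) * M = 2 * Real.pi * (c1 * Z) := by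
        field_simp
      rw [h4] at h3
      have hpi := Real.pi_gt_three
      have h5 : 0 ≤ c1 * Z := by positivity
      nlinarith
    have h3 : Z ≤ 1 / c1 * (M * W) := by
      rw [one_div, ← div_eq_inv_mul, le_div_iff₀ hc1]
      linarith
    refine h3.trans ?_
    rw [mul_assoc]
    refine mul_le_mul_of_nonneg_right ?_ (by positivity)
    rw [hC']
    linarith

end Pool.Agent.IR.H85
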